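import Mathlib

/-!
# A three lines estimate for finite families of singular value decompositions
-/

open Complex
open scoped InnerProductSpace ComplexConjugate

namespace Run7.h793.Cl

section ro

variable {ι₀ : Type*} [Fintype ι₀]

/-- The matrix of the rank one operator `x ↦ ⟪e, x⟫ f`, as a vector. -/
noncomputable def ro (f e : EuclideanSpace ℂ ι₀) : EuclideanSpace ℂ (ι₀ × ι₀) :=
  WithLp.toLp 2 (fun kl => f kl.1 * conj (e kl.2))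

lemma inner_ro (h g f e : EuclideanSpace ℂ ι₀) :
    ⟪ro h g, ro f e⟫_ℂ = ⟪h, f⟫_ℂ * ⟪e, g⟫_ℂ := by
  simp only [PiLp.inner_apply, ro, RCLike.inner_apply]
  rw [Fintype.sum_prod_type, Finset.sum_mul_sum]
  refine Finset.sum_congr rfl fun k _ => Finset.sum_congr rfl fun l _ => ?_
  simp only [map_mul, Complex.conj_conj]
  ring

lemma ro_orthonormal {κ : Type*} {f e : κ → EuclideanSpace ℂ ι₀} (hf : Orthonormal ℂ f)
    (he : Orthonormal ℂ e) : Orthonormal ℂ (fun a => ro (f a) (e a)) := by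
  classical
  rw [orthonormal_iff_ite] at hf he ⊢
  intro a b
  rw [inner_ro, hf, he]
  by_cases hab : a = b
  · simp [hab]
  · simp [hab]

lemma norm_sq_sum_ro {κ : Type*} [Fintype κ] {f e : κ → EuclideanSpace ℂ ι₀}
    (hf : Orthonormal ℂ f) (he : Orthonormal ℂ e) (v : κ → ℂ) :
    ‖∑ a, v a • ro (f a) (e a)‖ ^ 2 = ∑ a, ‖v a‖ ^ 2 := by
  have h := (ro_orthonormal hf he).inner_sum v v Finset.univ
  have h2 : ((‖∑ a, v a • ro (f a) (e a)‖ ^ 2 : ℝ) : ℂ) = ((∑ a, ‖v a‖ ^ 2 : ℝ) : ℂ) := by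
    have h3 := inner_self_eq_norm_sq_to_K (𝕜 := ℂ) (∑ a, v a • ro (f a) (e a))
    rw [h] at h3
    push_cast
    rw [← Complex.coe_algebraMap] at *
    rw [← h3]
    refine Finset.sum_congr rfl fun a _ => ?_
    rw [mul_comm, Complex.mul_conj, Complex.normSq_eq_norm_sq]
    push_cast
    rfl
  exact_mod_cast h2

end ro

section edge

variable {E : Type*} [NormedAddCommGroup E] [InnerProductSpace ℂ E]

/-- Edge `Re z = 0`: trace norm against operator norm. -/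
lemma edge_zero {κ ι : Type*} [Fintype κ] [Fintype ι] {g h : κ → E} {e f : ι → E}
    (hg : Orthonormal ℂ g) (hh : Orthonormal ℂ h) (he : Orthonormal ℂ e) (hf : Orthonormal ℂ f)
    (u : κ → ℂ) (v : ι → ℂ) (U : ℝ) (hU : 0 ≤ U) (hu : ∀ b, ‖u b‖ ≤ U) :
    ‖∑ b, ∑ a, u b * v a * (⟪h b, f a⟫_ℂ * ⟪e a, g b⟫_ℂ)‖ ≤ U * ∑ a, ‖v a‖ := by
  rw [Finset.sum_comm]
  refine (norm_sum_le _ _).trans ?_
  rw [Finset.mul_sum]
  refine Finset.sum_le_sum fun a _ => ?_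
  have h1 : ∀ b, ‖u b * v a * (⟪h b, f a⟫_ℂ * ⟪e a, g b⟫_ℂ)‖ ≤
      (U * ‖v a‖) * ((‖⟪h b, f a⟫_ℂ‖ ^ 2 + ‖⟪g b, e a⟫_ℂ‖ ^ 2) / 2) := by
    intro b
    rw [norm_mul, norm_mul, norm_mul, norm_inner_symm (e a) (g b)]
    refine mul_le_mul (mul_le_mul_of_nonneg_right (hu b) (norm_nonneg _)) ?_ (by positivity)
      (by positivity)
    nlinarith [sq_nonneg (‖⟪h b, f a⟫_ℂ‖ - ‖⟪g b, e a⟫_ℂ‖)]
  refine (norm_sum_le _ _).trans ((Finset.sum_le_sum fun b _ => h1 b).trans ?_)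
  rw [← Finset.mul_sum, ← Finset.sum_div, Finset.sum_add_distrib]
  have a1 := hh.sum_inner_products_le (f a) (s := Finset.univ)
  have a2 := hg.sum_inner_products_le (e a) (s := Finset.univ)
  rw [hf.1 a] at a1
  rw [he.1 a] at a2
  have a3 : (∑ b, ‖⟪h b, f a⟫_ℂ‖ ^ 2 + ∑ b, ‖⟪g b, e a⟫_ℂ‖ ^ 2) / 2 ≤ 1 := by linarith
  calc (U * ‖v a‖) * ((∑ b, ‖⟪h b, f a⟫_ℂ‖ ^ 2 + ∑ b, ‖⟪g b, e a⟫_ℂ‖ ^ 2) / 2)
      ≤ (U * ‖v a‖) * 1 := mul_le_mul_of_nonneg_left a3 (by positivity)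
    _ = U * ‖v a‖ := mul_one _

end edge

section edge1

variable {ι₀ : Type*} [Fintype ι₀] {I J : Type*} [Fintype I] [Fintype J]

lemma bil_eq {κ ι : Type*} [Fintype κ] [Fintype ι] (g h : κ → EuclideanSpace ℂ ι₀)
    (e f : ι → EuclideanSpace ℂ ι₀) (u : κ → ℂ) (v : ι → ℂ) :
    ∑ b, ∑ a, u b * v a * (⟪h b, f a⟫_ℂ * ⟪e a, g b⟫_ℂ) =
      ⟪∑ b, conj (u b) • ro (h b) (g b), ∑ a, v a • ro (f a) (e a)⟫_ℂ := by
  rw [sum_inner]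
  refine Finset.sum_congr rfl fun b _ => ?_
  rw [inner_sum]
  refine Finset.sum_congr rfl fun a _ => ?_
  rw [inner_smul_left, inner_smul_right, inner_ro, Complex.conj_conj]
  ring

/-- Edge `Re z = 1`: Hilbert-Schmidt estimate. -/
lemma edge_one {κ : I → ℕ} {ι : J → ℕ} (T : I → J → ℂ) (N : ℝ) (hN : 0 ≤ N)
    (hT2 : ∀ v : J → EuclideanSpace ℂ (ι₀ × ι₀), ∑ i, ‖∑ j, T i j • v j‖ ^ 2 ≤
      N * ∑ j, ‖v j‖ ^ 2)
    {g h : ∀ i, Fin (κ i) → EuclideanSpace ℂ ι₀} {e f : ∀ j, Fin (ι j) → EuclideanSpace ℂ ι₀}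
    (hg : ∀ i, Orthonormal ℂ (g i)) (hh : ∀ i, Orthonormal ℂ (h i))
    (he : ∀ j, Orthonormal ℂ (e j)) (hf : ∀ j, Orthonormal ℂ (f j))
    (u : ∀ i, Fin (κ i) → ℂ) (v : ∀ j, Fin (ι j) → ℂ) :
    ‖∑ i, ∑ j, T i j * ∑ b, ∑ a, u i b * v j a * (⟪h i b, f j a⟫_ℂ * ⟪e j a, g i b⟫_ℂ)‖ ≤
      √N * √(∑ i, ∑ b, ‖u i b‖ ^ 2) * √(∑ j, ∑ a, ‖v j a‖ ^ 2) := by
  set C : I → EuclideanSpace ℂ (ι₀ × ι₀) := fun i => ∑ b, conj (u i b) • ro (h i b) (g i b)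
    with hC
  set D : J → EuclideanSpace ℂ (ι₀ × ι₀) := fun j => ∑ a, v j a • ro (f j a) (e j a) with hD
  have e1 : ∑ i, ∑ j, T i j * ∑ b, ∑ a, u i b * v j a * (⟪h i b, f j a⟫_ℂ * ⟪e j a, g i b⟫_ℂ) =
      ∑ i, ⟪C i, ∑ j, T i j • D j⟫_ℂ := by
    refine Finset.sum_congr rfl fun i _ => ?_
    rw [inner_sum]
    refine Finset.sum_congr rfl fun j _ => ?_
    rw [inner_smul_right, bil_eq]
  have eC : ∀ i, ‖C i‖ ^ 2 = ∑ b, ‖u i b‖ ^ 2 := by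
    intro i
    rw [hC]
    simp only
    rw [norm_sq_sum_ro (hh i) (hg i)]
    refine Finset.sum_congr rfl fun b _ => ?_
    rw [Complex.norm_conj]
  have eD : ∀ j, ‖D j‖ ^ 2 = ∑ a, ‖v j a‖ ^ 2 := by
    intro j
    rw [hD]
    simp only
    rw [norm_sq_sum_ro (hf j) (he j)]
  rw [e1]
  have h1 : ‖∑ i, ⟪C i, ∑ j, T i j • D j⟫_ℂ‖ ≤ ∑ i, ‖C i‖ * ‖∑ j, T i j • D j‖ :=
    (norm_sum_le _ _).trans (Finset.sum_le_sum fun i _ => norm_inner_le_norm _ _)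
  have h2 : ∑ i, ‖C i‖ * ‖∑ j, T i j • D j‖ ≤
      √(∑ i, ‖C i‖ ^ 2) * √(∑ i, ‖∑ j, T i j • D j‖ ^ 2) :=
    Real.sum_mul_le_sqrt_mul_sqrt _ _ _
  have h3 : √(∑ i, ‖∑ j, T i j • D j‖ ^ 2) ≤ √N * √(∑ j, ‖D j‖ ^ 2) := by
    rw [← Real.sqrt_mul hN]
    exact Real.sqrt_le_sqrt (hT2 D)
  refine h1.trans (h2.trans ?_)
  simp only [eC] at *
  simp only [eD] at *
  calc √(∑ i, ∑ b, ‖u i b‖ ^ 2) * √(∑ i, ‖∑ j, T i j • D j‖ ^ 2)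
      ≤ √(∑ i, ∑ b, ‖u i b‖ ^ 2) * (√N * √(∑ j, ∑ a, ‖v j a‖ ^ 2)) :=
        mul_le_mul_of_nonneg_left h3 (Real.sqrt_nonneg _)
    _ = _ := by ring

end edge1

end Run7.h793.Cl
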