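import Pool.Agent.Run7.h793.Cl.Core

/-!
# The three lines estimate
-/

open Complex
open scoped InnerProductSpace ComplexConjugate

namespace Run7.h793.Cl

/-- `exp (α + β z)` -/
noncomputable def ex (α β : ℝ) (z : ℂ) : ℂ := Complex.exp ((α : ℂ) + (β : ℂ) * z)

lemma ex_diff (α β : ℝ) : Differentiable ℂ (ex α β) := by
  unfold ex
  fun_prop

lemma norm_ex (α β : ℝ) (z : ℂ) : ‖ex α β z‖ = Real.exp (α + β * z.re) := by
  unfold ex
  rw [Complex.norm_exp]
  congr 1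
  simp

lemma norm_ex_le (α β : ℝ) (z : ℂ) (h0 : 0 ≤ z.re) (h1 : z.re ≤ 1) :
    ‖ex α β z‖ ≤ Real.exp (|α| + |β|) := by
  rw [norm_ex]
  apply Real.exp_le_exp.mpr
  have h2 : β * z.re ≤ |β| * 1 := by
    calc β * z.re ≤ |β| * z.re := mul_le_mul_of_nonneg_right (le_abs_self β) h0
      _ ≤ |β| * 1 := mul_le_mul_of_nonneg_left h1 (abs_nonneg β)
  have h3 := le_abs_self α
  linarith

lemma ex_real (α β : ℝ) (θ : ℝ) : ex α β (θ : ℂ) = ((Real.exp (α + β * θ) : ℝ) : ℂ) := by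
  unfold ex
  push_cast
  rfl

section main

variable {ι₀ : Type*} [Fintype ι₀] {I J : Type*} [Fintype I] [Fintype J]

/-- The analytic function of the three lines theorem. -/
noncomputable def FF {κ : I → ℕ} {ι : J → ℕ} (T : I → J → ℂ) 
    (g h : ∀ i, Fin (κ i) → EuclideanSpace ℂ ι₀) (e f : ∀ j, Fin (ι j) → EuclideanSpace ℂ ι₀)
    (α β : ∀ i, Fin (κ i) → ℝ) (γ δ : ∀ j, Fin (ι j) → ℝ) (z : ℂ) : ℂ :=
  ∑ i, ∑ j, T i j * ∑ b, ∑ a, ex (α i b) (β i b) z * ex (γ j a) (δ j a) z *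
    (⟪h i b, f j a⟫_ℂ * ⟪e j a, g i b⟫_ℂ)

lemma FF_diff {κ : I → ℕ} {ι : J → ℕ} (T : I → J → ℂ) 
    (g h : ∀ i, Fin (κ i) → EuclideanSpace ℂ ι₀) (e f : ∀ j, Fin (ι j) → EuclideanSpace ℂ ι₀)
    (α β : ∀ i, Fin (κ i) → ℝ) (γ δ : ∀ j, Fin (ι j) → ℝ) :
    Differentiable ℂ (FF T g h e f α β γ δ) := by
  unfold FF
  refine Differentiable.fun_sum fun i _ => Differentiable.fun_sum fun j _ => ?_
  refine Differentiable.const_mul ?_ _
  refine Differentiable.fun_sum fun b _ => Differentiable.fun_sum fun a _ => ?_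
  exact ((ex_diff _ _).mul (ex_diff _ _)).mul_const _

lemma FF_bdd {κ : I → ℕ} {ι : J → ℕ} (T : I → J → ℂ) 
    (g h : ∀ i, Fin (κ i) → EuclideanSpace ℂ ι₀) (e f : ∀ j, Fin (ι j) → EuclideanSpace ℂ ι₀)
    (α β : ∀ i, Fin (κ i) → ℝ) (γ δ : ∀ j, Fin (ι j) → ℝ) :
    BddAbove ((norm ∘ FF T g h e f α β γ δ) '' HadamardThreeLines.verticalClosedStrip 0 1) := by
  refine ⟨∑ i, ∑ j, ‖T i j‖ * ∑ b, ∑ a, Real.exp (|α i b| + |β i b|) *
    Real.exp (|γ j a| + |δ j a|) * (‖⟪h i b, f j a⟫_ℂ‖ * ‖⟪e j a, g i b⟫_ℂ‖), ?_⟩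
  rintro _ ⟨z, hz, rfl⟩
  have hz0 : 0 ≤ z.re := hz.1
  have hz1 : z.re ≤ 1 := hz.2
  simp only [Function.comp]
  unfold FF
  refine (norm_sum_le _ _).trans (Finset.sum_le_sum fun i _ => ?_)
  refine (norm_sum_le _ _).trans (Finset.sum_le_sum fun j _ => ?_)
  rw [norm_mul]
  refine mul_le_mul_of_nonneg_left ?_ (norm_nonneg _)
  refine (norm_sum_le _ _).trans (Finset.sum_le_sum fun b _ => ?_)
  refine (norm_sum_le _ _).trans (Finset.sum_le_sum fun a _ => ?_)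
  rw [norm_mul, norm_mul, norm_mul]
  refine mul_le_mul_of_nonneg_right ?_ (by positivity)
  exact mul_le_mul (norm_ex_le _ _ _ hz0 hz1) (norm_ex_le _ _ _ hz0 hz1) (norm_nonneg _)
    (Real.exp_nonneg _)

theorem three {κ : I → ℕ} {ι : J → ℕ} (T : I → J → ℂ) (hT1 : ∀ i j, ‖T i j‖ ≤ 1)
    (N : ℝ) (hN : 0 ≤ N)
    (hT2 : ∀ v : J → EuclideanSpace ℂ (ι₀ × ι₀), ∑ i, ‖∑ j, T i j • v j‖ ^ 2 ≤
      N * ∑ j, ‖v j‖ ^ 2)
    {p q : ℝ} (hp : 0 < p) (hq : 0 < q)
    {g h : ∀ i, Fin (κ i) → EuclideanSpace ℂ ι₀} {e f : ∀ j, Fin (ι j) → EuclideanSpace ℂ ι₀}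
    (hg : ∀ i, Orthonormal ℂ (g i)) (hh : ∀ i, Orthonormal ℂ (h i))
    (he : ∀ j, Orthonormal ℂ (e j)) (hf : ∀ j, Orthonormal ℂ (f j))
    (t : ∀ i, Fin (κ i) → ℝ) (ht : ∀ i b, 0 < t i b)
    (s : ∀ j, Fin (ι j) → ℝ) (hs : ∀ j a, 0 < s j a)
    (x : I → ℝ) (hx : ∀ i, x i = (∑ b, t i b ^ p) ^ (1 / p))
    (R S : ℝ) (hR : R = ∑ i, x i ^ q) (hS : S = ∑ j, ∑ a, s j a ^ p)
    (θ : ℝ) (h0 : 0 ≤ θ) (h1 : θ ≤ 1) :
    ‖∑ i, ∑ j, T i j * ∑ b, ∑ a,
      ((x i ^ (q - (p + q) * θ / 2) * t i b ^ (p * θ / 2) : ℝ) : ℂ) *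
      ((s j a ^ (p * (1 - θ / 2)) : ℝ) : ℂ) *
      (⟪h i b, f j a⟫_ℂ * ⟪e j a, g i b⟫_ℂ)‖ ≤
      (R * S) ^ (1 - θ) * (√N * √R * √S) ^ θ := by
  -- positivity of `x`
  have hxpow : ∀ i, x i ^ p = ∑ b, t i b ^ p := by
    intro i
    rw [hx i, ← Real.rpow_mul (Finset.sum_nonneg fun b _ => Real.rpow_nonneg (ht i b).le _),
      one_div_mul_cancel hp.ne', Real.rpow_one]
  have hx0 : ∀ i, 0 ≤ x i := by
    intro i
    rw [hx i]
    exact Real.rpow_nonneg (Finset.sum_nonneg fun b _ => Real.rpow_nonneg (ht i b).le _) _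
  have hxpos : ∀ i, Fin (κ i) → 0 < x i := by
    intro i b
    rw [hx i]
    exact Real.rpow_pos_of_pos (Finset.sum_pos (fun b _ => Real.rpow_pos_of_pos (ht i b) _)
      ⟨b, Finset.mem_univ b⟩) _
  set α : ∀ i, Fin (κ i) → ℝ := fun i b => q * Real.log (x i) with hα
  set β : ∀ i, Fin (κ i) → ℝ := fun i b => p / 2 * Real.log (t i b) -
    (p + q) / 2 * Real.log (x i) with hβ
  set γ : ∀ j, Fin (ι j) → ℝ := fun j a => p * Real.log (s j a) with hγ
  set δ : ∀ j, Fin (ι j) → ℝ := fun j a => -(p / 2) * Real.log (s j a) with hδ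
  have hR0 : 0 ≤ R := by
    rw [hR]; exact Finset.sum_nonneg fun i _ => Real.rpow_nonneg (hx0 i) _
  have hS0 : 0 ≤ S := by
    rw [hS]
    exact Finset.sum_nonneg fun j _ => Finset.sum_nonneg fun a _ => Real.rpow_nonneg (hs j a).le _
  -- the value at `θ`
  have hval : FF T g h e f α β γ δ (θ : ℂ) = ∑ i, ∑ j, T i j * ∑ b, ∑ a,
      ((x i ^ (q - (p + q) * θ / 2) * t i b ^ (p * θ / 2) : ℝ) : ℂ) *
      ((s j a ^ (p * (1 - θ / 2)) : ℝ) : ℂ) *
      (⟪h i b, f j a⟫_ℂ * ⟪e j a, g i b⟫_ℂ) := by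
    unfold FF
    refine Finset.sum_congr rfl fun i _ => Finset.sum_congr rfl fun j _ => ?_
    congr 1
    refine Finset.sum_congr rfl fun b _ => Finset.sum_congr rfl fun a _ => ?_
    rw [ex_real, ex_real]
    congr 3
    · rw [Real.rpow_def_of_pos (hxpos i b), Real.rpow_def_of_pos (ht i b), ← Real.exp_add]
      congr 1
      simp only [hα, hβ]
      ring
    · rw [Real.rpow_def_of_pos (hs j a)]
      congr 1
      simp only [hγ, hδ]
      ring
  rw [← hval]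
  have key := HadamardThreeLines.norm_le_interp_of_mem_verticalClosedStrip₀₁'
    (FF T g h e f α β γ δ) (z := (θ : ℂ)) (a := R * S) (b := √N * √R * √S)
    (by
      constructor
      · simpa using h0
      · simpa using h1)
    (FF_diff T g h e f α β γ δ).diffContOnCl
    (FF_bdd T g h e f α β γ δ)
    ?_ ?_
  · simpa using key
  · intro z hz
    have hz' : z.re = 0 := hz
    unfold FF
    have hb : ∀ i j, ‖T i j * ∑ b, ∑ a, ex (α i b) (β i b) z * ex (γ j a) (δ j a) z *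
        (⟪h i b, f j a⟫_ℂ * ⟪e j a, g i b⟫_ℂ)‖ ≤ x i ^ q * ∑ a, s j a ^ p := by
      intro i j
      rw [norm_mul]
      have e1 := edge_zero (hg i) (hh i) (he j) (hf j) (fun b => ex (α i b) (β i b) z)
        (fun a => ex (γ j a) (δ j a) z) (x i ^ q) (Real.rpow_nonneg (hx0 i) _) (by
          intro b
          rw [norm_ex, hz', mul_zero, add_zero, Real.rpow_def_of_pos (hxpos i b)]
          apply le_of_eq
          congr 1
          simp only [hα]
          ring)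
      have e2 : ∑ a, ‖ex (γ j a) (δ j a) z‖ = ∑ a, s j a ^ p := by
        refine Finset.sum_congr rfl fun a _ => ?_
        rw [norm_ex, hz', mul_zero, add_zero, Real.rpow_def_of_pos (hs j a)]
        congr 1
        simp only [hγ]
        ring
      rw [e2] at e1
      calc ‖T i j‖ * _ ≤ 1 * _ := mul_le_mul_of_nonneg_right (hT1 i j) (norm_nonneg _)
        _ = _ := one_mul _
        _ ≤ _ := e1
    refine (norm_sum_le _ _).trans ((Finset.sum_le_sum fun i _ => (norm_sum_le _ _).trans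
      (Finset.sum_le_sum fun j _ => hb i j)).trans ?_)
    apply le_of_eq
    rw [hR, hS, Finset.sum_mul]
    refine Finset.sum_congr rfl fun i _ => ?_
    rw [Finset.mul_sum]
  · intro z hz
    have hz' : z.re = 1 := hz
    unfold FF
    refine (edge_one T N hN hT2 hg hh he hf (fun i b => ex (α i b) (β i b) z)
        (fun j a => ex (γ j a) (δ j a) z)).trans ?_
    apply le_of_eq
    have e1 : ∑ i, ∑ b, ‖ex (α i b) (β i b) z‖ ^ 2 = R := by
      rw [hR]
      refine Finset.sum_congr rfl fun i _ => ?_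
      rcases Nat.eq_zero_or_pos (κ i) with hk | hk
      · have hem : IsEmpty (Fin (κ i)) := by rw [hk]; infer_instance
        have hx1 : x i = 0 := by
          rw [hx i, Finset.univ_eq_empty, Finset.sum_empty, Real.zero_rpow]
          positivity
        rw [Finset.univ_eq_empty, Finset.sum_empty, hx1, Real.zero_rpow hq.ne']
      · have hxp := hxpos i ⟨0, hk⟩
        have e3 : ∀ b, ‖ex (α i b) (β i b) z‖ ^ 2 = x i ^ (q - p) * t i b ^ p := by
          intro b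
          rw [norm_ex, hz', mul_one, ← Real.exp_nat_mul, Real.rpow_def_of_pos hxp,
            Real.rpow_def_of_pos (ht i b), ← Real.exp_add]
          congr 1
          simp only [hα, hβ]
          push_cast
          ring
        simp only [e3]
        rw [← Finset.mul_sum, ← hxpow i, ← Real.rpow_add hxp]
        congr 1
        ring
    have e2 : ∑ j, ∑ a, ‖ex (γ j a) (δ j a) z‖ ^ 2 = S := by
      rw [hS]
      refine Finset.sum_congr rfl fun j _ => Finset.sum_congr rfl fun a _ => ?_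
      rw [norm_ex, hz', mul_one, ← Real.exp_nat_mul, Real.rpow_def_of_pos (hs j a)]
      congr 1
      simp only [hγ, hδ]
      push_cast
      ring
    rw [e1, e2]

end main

end Run7.h793.Cl
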