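import Pool.Agent.Run7.h793.Cl.Defs

/-!
# Singular values from a singular value decomposition
-/

open scoped InnerProductSpace ENNReal

namespace Run7.h793.Cl

universe u

variable {E F : Type u} [NormedAddCommGroup E] [InnerProductSpace ℂ E]
  [NormedAddCommGroup F] [InnerProductSpace ℂ F]

lemma norm_sq_sum_orth {ι : Type*} [Fintype ι] {f : ι → F} (hf : Orthonormal ℂ f) (c : ι → ℂ) :
    ‖∑ a, c a • f a‖ ^ 2 = ∑ a, ‖c a‖ ^ 2 := by
  have h := hf.inner_sum c c Finset.univ
  have h2 : ((‖∑ a, c a • f a‖ ^ 2 : ℝ) : ℂ) = ((∑ a, ‖c a‖ ^ 2 : ℝ) : ℂ) := by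
    have h3 := inner_self_eq_norm_sq_to_K (𝕜 := ℂ) (∑ a, c a • f a)
    rw [h] at h3
    push_cast
    rw [← Complex.coe_algebraMap] at *
    rw [← h3]
    refine Finset.sum_congr rfl fun a _ => ?_
    rw [mul_comm, Complex.mul_conj, Complex.normSq_eq_norm_sq]
    push_cast
    rfl
  exact_mod_cast h2

/-- The finite rank operator `x ↦ ∑ s_a ⟪e_a, x⟫ f_a`. -/
noncomputable def svdOp {m : ℕ} (s : Fin m → ℝ) (e : Fin m → E) (f : Fin m → F) : E →L[ℂ] F :=
  ∑ a, (s a : ℂ) • (innerSL ℂ (e a)).smulRight (f a)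

lemma svdOp_apply {m : ℕ} (s : Fin m → ℝ) (e : Fin m → E) (f : Fin m → F) (x : E) :
    svdOp s e f x = ∑ a, ((s a : ℂ) * ⟪e a, x⟫_ℂ) • f a := by
  unfold svdOp
  rw [sum_apply]
  refine Finset.sum_congr rfl fun a _ => ?_
  change (s a : ℂ) • (⟪e a, x⟫_ℂ • f a) = _
  rw [smul_smul]

lemma sNum_svdOp_le {m : ℕ} {s : Fin m → ℝ} {e : Fin m → E} {f : Fin m → F}
    (hs : ∀ a, 0 ≤ s a) (hanti : Antitone s) (he : Orthonormal ℂ e) (hf : Orthonormal ℂ f)
    (k : ℕ) : sNum (svdOp s e f) k ≤ if h : k < m then ENNReal.ofReal (s ⟨k, h⟩) else 0 := by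
  classical
  set c : ℝ := if h : k < m then s ⟨k, h⟩ else 0 with hc
  have hc0 : 0 ≤ c := by
    rw [hc]; split_ifs
    · exact hs _
    · exact le_rfl
  have hrw : (if h : k < m then ENNReal.ofReal (s ⟨k, h⟩) else 0) = ENNReal.ofReal c := by
    rw [hc]; split_ifs <;> simp
  rw [hrw]
  set s' : Fin m → ℝ := fun a => if a.val < k then s a else 0 with hs'
  have hrank : LinearMap.rank ((svdOp s' e f : E →L[ℂ] F) : E →ₗ[ℂ] F) ≤ (k : Cardinal.{u}) := by
    set S : Finset F := (Finset.univ.filter (fun a : Fin m => a.val < k)).image f with hS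
    have h1 : LinearMap.range ((svdOp s' e f : E →L[ℂ] F) : E →ₗ[ℂ] F) ≤
        Submodule.span ℂ (S : Set F) := by
      rintro _ ⟨x, rfl⟩
      change svdOp s' e f x ∈ _
      rw [svdOp_apply]
      refine Submodule.sum_mem _ fun a _ => ?_
      by_cases ha : a.val < k
      · refine Submodule.smul_mem _ _ (Submodule.subset_span ?_)
        rw [hS]
        simp only [Finset.coe_image, Set.mem_image, Finset.mem_coe, Finset.mem_filter,
          Finset.mem_univ, true_and]
        exact ⟨a, ha, rfl⟩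
      · simp [hs', ha]
    have h2 : (Finset.univ.filter (fun a : Fin m => a.val < k)).card ≤ k := by
      have h3 : ((Finset.univ.filter (fun a : Fin m => a.val < k)).image Fin.val).card ≤ k := by
        refine (Finset.card_le_card (t := Finset.range k) ?_).trans (by simp)
        intro x hx
        simp only [Finset.mem_image, Finset.mem_filter, Finset.mem_univ, true_and] at hx
        obtain ⟨a, ha, rfl⟩ := hx
        simpa using ha
      rwa [Finset.card_image_of_injective _ Fin.val_injective] at h3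
    calc LinearMap.rank ((svdOp s' e f : E →L[ℂ] F) : E →ₗ[ℂ] F)
        ≤ Module.rank ℂ (Submodule.span ℂ (S : Set F)) := Submodule.rank_mono h1
      _ ≤ Cardinal.mk (S : Set F) := rank_span_le _
      _ = (S.card : Cardinal.{u}) := by simp
      _ ≤ (k : Cardinal.{u}) := by
        have h4 : S.card ≤ k := Finset.card_image_le.trans h2
        exact_mod_cast h4
  refine (sNum_le hrank).trans ?_
  rw [← ofReal_norm]
  apply ENNReal.ofReal_le_ofReal
  refine ContinuousLinearMap.opNorm_le_bound _ hc0 fun x => ?_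
  have e1 : (svdOp s e f - svdOp s' e f) x =
      ∑ a, ((((s a - s' a : ℝ)) : ℂ) * ⟪e a, x⟫_ℂ) • f a := by
    rw [sub_apply, svdOp_apply, svdOp_apply, ← Finset.sum_sub_distrib]
    refine Finset.sum_congr rfl fun a _ => ?_
    rw [← sub_smul]
    congr 1
    push_cast
    ring
  have e2 := norm_sq_sum_orth hf (fun a => (((s a - s' a : ℝ)) : ℂ) * ⟪e a, x⟫_ℂ)
  rw [e1]
  have e3 : ∀ a, ‖(((s a - s' a : ℝ)) : ℂ) * ⟪e a, x⟫_ℂ‖ ^ 2 ≤ c ^ 2 * ‖⟪e a, x⟫_ℂ‖ ^ 2 := by
    intro a
    rw [norm_mul, mul_pow, Complex.norm_real, Real.norm_eq_abs, sq_abs]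
    refine mul_le_mul_of_nonneg_right ?_ (by positivity)
    by_cases ha : a.val < k
    · simp only [hs', ha, if_true, sub_self]
      have := sq_nonneg c
      simpa using this
    · simp only [hs', ha, if_false, sub_zero]
      have hk : k < m := lt_of_le_of_lt (not_lt.mp ha) a.2
      have h5 : s a ≤ c := by
        rw [hc, dif_pos hk]
        apply hanti
        exact not_lt.mp ha
      exact pow_le_pow_left₀ (hs a) h5 2
  have e4 : ‖∑ a, ((((s a - s' a : ℝ)) : ℂ) * ⟪e a, x⟫_ℂ) • f a‖ ^ 2 ≤ (c * ‖x‖) ^ 2 := by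
    rw [e2]
    refine (Finset.sum_le_sum fun a _ => e3 a).trans ?_
    rw [← Finset.mul_sum, mul_pow]
    exact mul_le_mul_of_nonneg_left (he.sum_inner_products_le x) (by positivity)
  exact le_of_sq_le_sq e4 (by positivity)

lemma le_sNum_svdOp {m : ℕ} {s : Fin m → ℝ} {e : Fin m → E} {f : Fin m → F}
    (hs : ∀ a, 0 ≤ s a) (hanti : Antitone s) (he : Orthonormal ℂ e) (hf : Orthonormal ℂ f)
    (k : ℕ) (hk : k < m) : ENNReal.ofReal (s ⟨k, hk⟩) ≤ sNum (svdOp s e f) k := by
  classical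
  refine le_sNum fun B hB => ?_
  -- a vector in the span of `e_0, …, e_k` killed by `B`
  set ι : Fin (k + 1) → Fin m := Fin.castLE (by omega) with hι
  have hιinj : Function.Injective ι := Fin.castLE_injective _
  have he' : Orthonormal ℂ (e ∘ ι) := he.comp _ hιinj
  have hf' : Orthonormal ℂ (f ∘ ι) := hf.comp _ hιinj
  set φ : (Fin (k + 1) → ℂ) →ₗ[ℂ] E := Fintype.linearCombination ℂ (e ∘ ι) with hφ
  have hfin : Module.Finite ℂ (LinearMap.range (B : E →ₗ[ℂ] F)) := by
    rw [← Module.rank_lt_aleph0_iff]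
    exact lt_of_le_of_lt hB Cardinal.natCast_lt_aleph0
  have hfr : Module.finrank ℂ (LinearMap.range (B : E →ₗ[ℂ] F)) ≤ k :=
    Module.finrank_le_of_rank_le hB
  set ψ : (Fin (k + 1) → ℂ) →ₗ[ℂ] LinearMap.range (B : E →ₗ[ℂ] F) :=
    (LinearMap.rangeRestrict (B : E →ₗ[ℂ] F)).comp φ with hψ
  have hker : LinearMap.ker ψ ≠ ⊥ := by
    apply LinearMap.ker_ne_bot_of_finrank_lt
    rw [Module.finrank_fin_fun]
    omega
  obtain ⟨c, hc, hc0⟩ := (Submodule.ne_bot_iff _).mp hker
  set x : E := φ c with hx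
  have hBx : B x = 0 := by
    have h1 : ψ c = 0 := hc
    have h2 := congrArg Subtype.val h1
    exact h2
  have hxs : x = ∑ i, c i • e (ι i) := by
    rw [hx, hφ, Fintype.linearCombination_apply]
    rfl
  have hxn : ‖x‖ ^ 2 = ∑ i, ‖c i‖ ^ 2 := by
    rw [hxs]
    exact norm_sq_sum_orth he' c
  have hxpos : 0 < ‖x‖ := by
    have h1 : ‖x‖ ^ 2 ≠ 0 := by
      rw [hxn]
      intro h2
      apply hc0
      funext i
      have h3 := (Finset.sum_eq_zero_iff_of_nonneg (fun i _ => by positivity)).mp h2 i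
        (Finset.mem_univ i)
      simpa using h3
    have h4 : ‖x‖ ≠ 0 := fun h => h1 (by rw [h]; simp)
    exact lt_of_le_of_ne (norm_nonneg _) h4.symm
  have hAx : svdOp s e f x = ∑ i, ((s (ι i) : ℂ) * c i) • f (ι i) := by
    rw [hxs, map_sum]
    refine Finset.sum_congr rfl fun i _ => ?_
    rw [map_smul, svdOp_apply]
    rw [Finset.sum_eq_single (ι i)]
    · rw [inner_self_eq_norm_sq_to_K, he.1]
      simp only [one_pow, mul_one, smul_smul, RCLike.ofReal_one]
      congr 1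
      ring
    · intro b _ hb
      rw [he.2 hb]
      simp
    · intro h
      exact absurd (Finset.mem_univ _) h
  have hAn : ‖svdOp s e f x‖ ^ 2 = ∑ i, s (ι i) ^ 2 * ‖c i‖ ^ 2 := by
    rw [hAx]
    have h1 := norm_sq_sum_orth hf' (fun i => (s (ι i) : ℂ) * c i)
    simp only [Function.comp] at h1
    rw [h1]
    refine Finset.sum_congr rfl fun i _ => ?_
    rw [norm_mul, mul_pow, Complex.norm_real, Real.norm_eq_abs, sq_abs]
  have hlow : (s ⟨k, hk⟩ * ‖x‖) ^ 2 ≤ ‖svdOp s e f x‖ ^ 2 := by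
    rw [hAn, mul_pow, hxn, Finset.mul_sum]
    refine Finset.sum_le_sum fun i _ => ?_
    refine mul_le_mul_of_nonneg_right ?_ (by positivity)
    refine pow_le_pow_left₀ (hs _) (hanti ?_) 2
    rw [Fin.le_def]
    have := i.2
    simp [hι]
    omega
  have hlow2 : s ⟨k, hk⟩ * ‖x‖ ≤ ‖svdOp s e f x‖ := le_of_sq_le_sq hlow (norm_nonneg _)
  have h6 : svdOp s e f x = (svdOp s e f - B) x := by
    rw [sub_apply, hBx, sub_zero]
  rw [h6] at hlow2
  have h7 := hlow2.trans (ContinuousLinearMap.le_opNorm _ _)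
  have h8 : s ⟨k, hk⟩ ≤ ‖svdOp s e f - B‖ := le_of_mul_le_mul_right h7 hxpos
  rw [← ofReal_norm]
  exact ENNReal.ofReal_le_ofReal h8

/-- The singular values of an operator given by a singular value decomposition. -/
theorem sNum_svdOp {m : ℕ} {s : Fin m → ℝ} {e : Fin m → E} {f : Fin m → F}
    (hs : ∀ a, 0 ≤ s a) (hanti : Antitone s) (he : Orthonormal ℂ e) (hf : Orthonormal ℂ f)
    (k : ℕ) : sNum (svdOp s e f) k = if h : k < m then ENNReal.ofReal (s ⟨k, h⟩) else 0 := by
  apply le_antisymm (sNum_svdOp_le hs hanti he hf k)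
  split_ifs with h
  · exact le_sNum_svdOp hs hanti he hf k h
  · exact zero_le

end Run7.h793.Cl
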