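import Mathlib

/-!
# Singular values and Schatten quasi-norms of bounded operators on Hilbert spaces
-/

open scoped InnerProductSpace ENNReal

namespace Run7.h793.Cl

universe u

variable {E F G : Type u} [NormedAddCommGroup E] [InnerProductSpace ℂ E]
  [NormedAddCommGroup F] [InnerProductSpace ℂ F] [NormedAddCommGroup G] [InnerProductSpace ℂ G]

/-- The `k`-th singular value `s_{k+1}(A)`, `k = 0, 1, 2, …`, of a bounded operator: the distance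
in operator norm from `A` to the bounded operators of rank at most `k`. -/
noncomputable def sNum (A : E →L[ℂ] F) (k : ℕ) : ℝ≥0∞ :=
  ⨅ (B : E →L[ℂ] F) (_ : LinearMap.rank (B : E →ₗ[ℂ] F) ≤ (k : Cardinal.{u})), ‖A - B‖ₑ

/-- The Schatten `p`-(quasi-)norm `(∑ s_k(A)^p)^{1/p}`, with value `∞` when the sum diverges. -/
noncomputable def schatten (p : ℝ) (A : E →L[ℂ] F) : ℝ≥0∞ :=
  (∑' k : ℕ, sNum A k ^ p) ^ (1 / p)

lemma sNum_le {A B : E →L[ℂ] F} {k : ℕ}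
    (h : LinearMap.rank (B : E →ₗ[ℂ] F) ≤ (k : Cardinal.{u})) : sNum A k ≤ ‖A - B‖ₑ :=
  iInf₂_le B h

lemma le_sNum {A : E →L[ℂ] F} {k : ℕ} {c : ℝ≥0∞}
    (h : ∀ B : E →L[ℂ] F, LinearMap.rank (B : E →ₗ[ℂ] F) ≤ (k : Cardinal.{u}) →
      c ≤ ‖A - B‖ₑ) : c ≤ sNum A k :=
  le_iInf₂ h

lemma sNum_comp_left (L : F →L[ℂ] G) (hL : ‖L‖ ≤ 1) (A : E →L[ℂ] F) (k : ℕ) :
    sNum (L ∘L A) k ≤ sNum A k := by
  refine le_sNum fun B hB => ?_
  have h1 : LinearMap.rank ((L ∘L B : E →L[ℂ] G) : E →ₗ[ℂ] G) ≤ (k : Cardinal.{u}) := by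
    refine le_trans ?_ hB
    exact LinearMap.rank_comp_le_right (B : E →ₗ[ℂ] F) (L : F →ₗ[ℂ] G)
  refine (sNum_le h1).trans ?_
  rw [← ContinuousLinearMap.comp_sub, ← ofReal_norm, ← ofReal_norm]
  apply ENNReal.ofReal_le_ofReal
  calc ‖L ∘L (A - B)‖ ≤ ‖L‖ * ‖A - B‖ := ContinuousLinearMap.opNorm_comp_le _ _
    _ ≤ 1 * ‖A - B‖ := mul_le_mul_of_nonneg_right hL (norm_nonneg _)
    _ = _ := one_mul _

lemma sNum_comp_right (M : G →L[ℂ] E) (hM : ‖M‖ ≤ 1) (A : E →L[ℂ] F) (k : ℕ) :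
    sNum (A ∘L M) k ≤ sNum A k := by
  refine le_sNum fun B hB => ?_
  have h1 : LinearMap.rank ((B ∘L M : G →L[ℂ] F) : G →ₗ[ℂ] F) ≤ (k : Cardinal.{u}) := by
    refine le_trans ?_ hB
    exact LinearMap.rank_comp_le_left (M : G →ₗ[ℂ] E) (B : E →ₗ[ℂ] F)
  refine (sNum_le h1).trans ?_
  rw [← ContinuousLinearMap.sub_comp, ← ofReal_norm, ← ofReal_norm]
  apply ENNReal.ofReal_le_ofReal
  calc ‖(A - B) ∘L M‖ ≤ ‖A - B‖ * ‖M‖ := ContinuousLinearMap.opNorm_comp_le _ _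
    _ ≤ ‖A - B‖ * 1 := mul_le_mul_of_nonneg_left hM (norm_nonneg _)
    _ = _ := mul_one _

lemma sNum_le_add (A B : E →L[ℂ] F) (k : ℕ) : sNum A k ≤ sNum B k + ‖A - B‖ₑ := by
  unfold sNum
  rw [ENNReal.iInf_add]
  refine le_iInf fun C => ?_
  rw [ENNReal.iInf_add]
  refine le_iInf fun hC => ?_
  refine (iInf₂_le C hC).trans ?_
  calc ‖A - C‖ₑ = ‖(B - C) + (A - B)‖ₑ := by congr 1; abel
    _ ≤ ‖B - C‖ₑ + ‖A - B‖ₑ := by
      rw [← ofReal_norm, ← ofReal_norm, ← ofReal_norm,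
        ← ENNReal.ofReal_add (norm_nonneg _) (norm_nonneg _)]
      exact ENNReal.ofReal_le_ofReal (norm_add_le _ _)

end Run7.h793.Cl
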