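import Pool.Agent.Run7.h793.Cl.Dec

/-!
# Existence of the singular value decomposition in finite dimensions
-/

open scoped InnerProductSpace ENNReal

namespace Run7.h793.Cl

universe u

theorem exists_svd {E : Type u} [NormedAddCommGroup E] [InnerProductSpace ℂ E]
    [FiniteDimensional ℂ E] (A : E →L[ℂ] E) :
    ∃ (m : ℕ) (s : Fin m → ℝ) (e f : Fin m → E), (∀ a, 0 < s a) ∧ Antitone s ∧
      Orthonormal ℂ e ∧ Orthonormal ℂ f ∧ A = svdOp s e f := by
  classical
  set T : E →ₗ[ℂ] E := (A : E →ₗ[ℂ] E) with hT
  set n := Module.finrank ℂ E with hn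
  set m := Module.finrank ℂ (LinearMap.range T) with hm
  have hmn : m ≤ n := Submodule.finrank_le _
  have hsym := T.isSymmetric_adjoint_comp_self
  set eb : OrthonormalBasis (Fin n) ℂ E := hsym.eigenvectorBasis hn.symm with heb
  set e : Fin m → E := fun a => eb (Fin.castLE hmn a) with he
  set s : Fin m → ℝ := fun a => T.singularValues a with hs
  have hspos : ∀ a, 0 < s a := fun a => by
    simp only [hs]
    exact T.singularValues_pos_iff_lt_finrank_range.mpr a.2
  have hanti : Antitone s := fun a b hab => T.singularValues_antitone hab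
  have heo : Orthonormal ℂ e := eb.orthonormal.comp _ (Fin.castLE_injective _)
  have hev : ∀ i : Fin n, (LinearMap.adjoint T ∘ₗ T) (eb i) =
      ((T.singularValues i ^ 2 : ℝ) : ℂ) • eb i := by
    intro i
    rw [heb, hsym.apply_eigenvectorBasis, T.sq_singularValues_fin hn.symm i]
    rfl
  have hin : ∀ i j : Fin n, ⟪T (eb i), T (eb j)⟫_ℂ =
      if i = j then ((T.singularValues j ^ 2 : ℝ) : ℂ) else 0 := by
    intro i j
    have h1 : ⟪T (eb i), T (eb j)⟫_ℂ = ⟪eb i, (LinearMap.adjoint T ∘ₗ T) (eb j)⟫_ℂ := by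
      rw [LinearMap.comp_apply, LinearMap.adjoint_inner_right]
    rw [h1, hev, inner_smul_right, orthonormal_iff_ite.mp eb.orthonormal i j]
    split_ifs <;> simp
  have hzero : ∀ i : Fin n, m ≤ i.val → T (eb i) = 0 := by
    intro i hi
    have h1 : T.singularValues i = 0 := T.singularValues_eq_zero_iff_le_finrank_range.mpr hi
    have h2 := hin i i
    rw [if_pos rfl, h1] at h2
    have h3 : ⟪T (eb i), T (eb i)⟫_ℂ = 0 := by simpa using h2
    exact inner_self_eq_zero.mp h3
  set f : Fin m → E := fun a => ((s a : ℂ)⁻¹) • T (e a) with hf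
  have hfo : Orthonormal ℂ f := by
    rw [orthonormal_iff_ite]
    intro a b
    simp only [hf]
    rw [inner_smul_left, inner_smul_right]
    simp only [he]
    rw [hin]
    by_cases hab : a = b
    · subst hab
      have h3 : (s a : ℂ) ≠ 0 := by
        have := (hspos a).ne'
        exact_mod_cast this
      have h4 : T.singularValues ((Fin.castLE hmn a : Fin n) : ℕ) = s a := by
        simp [hs]
      rw [if_pos rfl, if_pos rfl, h4]
      simp only [map_inv₀, Complex.conj_ofReal]
      push_cast
      field_simp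
    · have h5 : Fin.castLE hmn a ≠ Fin.castLE hmn b := fun h => hab (Fin.castLE_injective _ h)
      rw [if_neg h5, if_neg hab]
      simp
  refine ⟨m, s, e, f, hspos, hanti, heo, hfo, ?_⟩
  ext x
  rw [svdOp_apply]
  have h6 : A x = ∑ i : Fin n, ⟪eb i, x⟫_ℂ • T (eb i) := by
    conv_lhs => rw [← eb.sum_repr' x]
    rw [map_sum]
    refine Finset.sum_congr rfl fun i _ => ?_
    rw [map_smul]
    rfl
  rw [h6]
  symm
  refine Fintype.sum_of_injective (Fin.castLE hmn) (Fin.castLE_injective _) _ _ ?_ ?_
  · intro i hi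
    have h7 : m ≤ i.val := by
      by_contra h
      push Not at h
      exact hi ⟨⟨i.val, h⟩, by ext; rfl⟩
    rw [hzero i h7, smul_zero]
  · intro a
    have h3 : (s a : ℂ) ≠ 0 := by
      have := (hspos a).ne'
      exact_mod_cast this
    simp only [hf, he]
    rw [smul_smul]
    congr 1
    field_simp

end Run7.h793.Cl
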