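import Pool.Agent.Run7.h793.Cl.FinDim

/-!
# The inequalities for `n`-tuples of operators on a finite dimensional space
-/

open scoped InnerProductSpace ENNReal ComplexConjugate

namespace Run7.h793.Cl

universe u

section formula

variable {E F : Type u} [NormedAddCommGroup E] [InnerProductSpace ℂ E]
  [NormedAddCommGroup F] [InnerProductSpace ℂ F]

/-- `∑ s_k(A)^p` -/
noncomputable def tau (p : ℝ) (A : E →L[ℂ] F) : ℝ≥0∞ := ∑' k : ℕ, sNum A k ^ p

lemma schatten_rpow (p r : ℝ) (A : E →L[ℂ] F) : schatten p A ^ r = tau p A ^ (r / p) := by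
  unfold schatten tau
  rw [← ENNReal.rpow_mul]
  congr 1
  ring

lemma tau_svdOp {m : ℕ} {s : Fin m → ℝ} {e : Fin m → E} {f : Fin m → F}
    (hs : ∀ a, 0 < s a) (hanti : Antitone s) (he : Orthonormal ℂ e) (hf : Orthonormal ℂ f)
    {p : ℝ} (hp : 0 < p) : tau p (svdOp s e f) = ENNReal.ofReal (∑ a, s a ^ p) := by
  unfold tau
  simp only [sNum_svdOp (fun a => (hs a).le) hanti he hf]
  rw [tsum_eq_sum (s := Finset.range m)]
  · rw [Finset.sum_range, ENNReal.ofReal_sum_of_nonneg (fun a _ => Real.rpow_nonneg (hs a).le _)]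
    refine Finset.sum_congr rfl fun a _ => ?_
    rw [dif_pos a.2, ENNReal.ofReal_rpow_of_nonneg (hs _).le hp.le]
  · intro k hk
    have hk' : ¬ k < m := by simpa using hk
    rw [dif_neg hk', ENNReal.zero_rpow_of_pos hp]

end formula

section matrix

/-- The index set: one index for the sum, one for each pair `j < k`. -/
abbrev Ix (n : ℕ) : Type := Option ((j : Fin n) × (Finset.Ioi j))

/-- The coefficients of the sum and of the differences. -/
noncomputable def TT (n : ℕ) : Ix n → Fin n → ℂ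
  | none, _ => 1
  | some p, j => (if j = p.1 then 1 else 0) - (if j = (p.2 : Fin n) then 1 else 0)

lemma TT_none {n : ℕ} {M : Type*} [AddCommGroup M] [Module ℂ M] (v : Fin n → M) :
    ∑ j, TT n none j • v j = ∑ j, v j := by
  simp [TT]

lemma TT_some {n : ℕ} {M : Type*} [AddCommGroup M] [Module ℂ M] (v : Fin n → M)
    (p : (j : Fin n) × (Finset.Ioi j)) :
    ∑ j, TT n (some p) j • v j = v p.1 - v p.2 := by
  simp only [TT, sub_smul, ite_smul, one_smul, zero_smul, Finset.sum_sub_distrib,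
    Finset.sum_ite_eq', Finset.mem_univ, if_true]

lemma TT_norm {n : ℕ} (i : Ix n) (j : Fin n) : ‖TT n i j‖ ≤ 1 := by
  rcases i with _ | p
  · simp [TT]
  · have h1 : (p.1 : Fin n) < (p.2 : Fin n) := Finset.mem_Ioi.mp p.2.2
    simp only [TT]
    by_cases ha : j = p.1
    · have hb : j ≠ (p.2 : Fin n) := by rw [ha]; exact h1.ne
      rw [if_pos ha, if_neg hb]
      simp
    · rw [if_neg ha]
      split_ifs <;> simp

lemma TT_conj {n : ℕ} (i : Ix n) (j : Fin n) : conj (TT n i j) = TT n i j := by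
  rcases i with _ | p
  · simp [TT]
  · simp only [TT, map_sub]
    split_ifs <;> simp

lemma sum_Ix {n : ℕ} {M : Type*} [AddCommMonoid M] (f : Ix n → M) :
    ∑ i, f i = f none + ∑ j : Fin n, ∑ k : Finset.Ioi j, f (some ⟨j, k⟩) := by
  rw [Fintype.sum_option, Fintype.sum_sigma]

lemma sum_Ioi_sym {n : ℕ} {M : Type*} [AddCommGroup M] (G : Fin n → Fin n → M)
    (hsym : ∀ a b, G a b = G b a) (hdiag : ∀ a, G a a = 0) :
    (∑ a, ∑ b ∈ Finset.Ioi a, G a b) + (∑ a, ∑ b ∈ Finset.Ioi a, G a b) = ∑ a, ∑ b, G a b := by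
  have h := Finset.sum_sum_Ioi_add_eq_sum_sum_off_diag (fun a b => G a b)
  have h1 : ∀ i : Fin n, ∑ j ∈ {i}ᶜ, G j i = ∑ j, G i j := by
    intro i
    rw [← Finset.sum_compl_add_sum {i} (fun j => G i j), Finset.sum_singleton, hdiag, add_zero]
    exact Finset.sum_congr rfl fun j _ => hsym _ _
  simp only [h1] at h
  rw [← h, ← Finset.sum_add_distrib]
  refine Finset.sum_congr rfl fun a _ => ?_
  rw [← Finset.sum_add_distrib]
  refine Finset.sum_congr rfl fun b _ => ?_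
  rw [hsym b a]

lemma lagrange {n : ℕ} {W : Type*} [NormedAddCommGroup W] [InnerProductSpace ℂ W]
    (v : Fin n → W) :
    ‖∑ j, v j‖ ^ 2 + ∑ j, ∑ k ∈ Finset.Ioi j, ‖v j - v k‖ ^ 2 = n * ∑ j, ‖v j‖ ^ 2 := by
  have h1 := sum_Ioi_sym (fun a b => ‖v a - v b‖ ^ 2) (fun a b => by rw [norm_sub_rev])
    (fun a => by simp)
  have h2 : ∑ a, ∑ b, ‖v a - v b‖ ^ 2 = 2 * (n * ∑ j, ‖v j‖ ^ 2) - 2 * ‖∑ j, v j‖ ^ 2 := by
    have h3 : ∀ a b, ‖v a - v b‖ ^ 2 = ‖v a‖ ^ 2 + ‖v b‖ ^ 2 - 2 * (⟪v a, v b⟫_ℂ).re := by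
      intro a b
      rw [@norm_sub_sq ℂ]
      simp only [RCLike.re_to_complex]
      ring
    have h4 : ‖∑ j, v j‖ ^ 2 = ∑ a, ∑ b, (⟪v a, v b⟫_ℂ).re := by
      rw [← @inner_self_eq_norm_sq ℂ, sum_inner]
      simp only [inner_sum, RCLike.re_to_complex, Complex.re_sum]
    simp only [h3, Finset.sum_sub_distrib, Finset.sum_add_distrib, ← Finset.mul_sum]
    rw [h4]
    simp only [Finset.sum_const, Finset.card_univ, Fintype.card_fin, nsmul_eq_mul,
      ← Finset.mul_sum]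
    ring
  linarith

lemma TT_sq {n : ℕ} {W : Type*} [NormedAddCommGroup W] [InnerProductSpace ℂ W]
    (v : Fin n → W) : ∑ i, ‖∑ j, TT n i j • v j‖ ^ 2 ≤ (n : ℝ) * ∑ j, ‖v j‖ ^ 2 := by
  rw [sum_Ix, TT_none, ← lagrange]
  apply le_of_eq
  congr 1
  refine Finset.sum_congr rfl fun j _ => ?_
  rw [← Finset.sum_coe_sort (Finset.Ioi j) (fun k => ‖v j - v k‖ ^ 2)]
  refine Finset.sum_congr rfl fun k _ => ?_
  rw [TT_some]

lemma TT_dual {n : ℕ} {M : Type*} [AddCommGroup M] [Module ℂ M] (v : Fin n → M) (j : Fin n) :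
    ∑ i, conj (TT n i j) • (∑ l, TT n i l • v l) = (n : ℂ) • v j := by
  simp only [TT_conj]
  rw [sum_Ix, TT_none]
  have h0 : TT n none j = 1 := rfl
  rw [h0, one_smul]
  set G : Fin n → Fin n → M := fun a b =>
    ((if j = a then (1 : ℂ) else 0) - (if j = b then 1 else 0)) • (v a - v b) with hG
  have h1 : ∑ a : Fin n, ∑ b : Finset.Ioi a, TT n (some ⟨a, b⟩) j •
      (∑ l, TT n (some ⟨a, b⟩) l • v l) = ∑ a, ∑ b ∈ Finset.Ioi a, G a b := by
    refine Finset.sum_congr rfl fun a _ => ?_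
    rw [← Finset.sum_coe_sort (Finset.Ioi a) (fun b => G a b)]
    refine Finset.sum_congr rfl fun b _ => ?_
    rw [TT_some]
    rfl
  rw [h1]
  have h2 := sum_Ioi_sym G (fun a b => by
    simp only [hG]
    rw [← neg_sub (v b) (v a), smul_neg, ← neg_smul]
    congr 1
    ring) (fun a => by simp [hG])
  have h3 : ∑ a, ∑ b, G a b = (2 : ℂ) • ((n : ℂ) • v j - ∑ l, v l) := by
    simp only [hG, sub_smul, ite_smul, one_smul, zero_smul, Finset.sum_sub_distrib,
      Finset.sum_ite_eq, Finset.mem_univ, if_true]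
    have h4 : ∀ a : Fin n, (∑ b : Fin n, if j = a then v a - v b else 0) =
        if j = a then ((n : ℂ) • v a - ∑ b, v b) else 0 := by
      intro a
      split_ifs
      · rw [Finset.sum_sub_distrib, Finset.sum_const, Finset.card_univ, Fintype.card_fin,
          ← Nat.cast_smul_eq_nsmul ℂ]
      · simp
    simp only [h4, Finset.sum_ite_eq, Finset.mem_univ, if_true]
    rw [Finset.sum_const, Finset.card_univ, Fintype.card_fin, ← Nat.cast_smul_eq_nsmul ℂ,
      two_smul]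
    abel
  have h5 : ∑ a, ∑ b ∈ Finset.Ioi a, G a b = (n : ℂ) • v j - ∑ l, v l := by
    have h6 : (2 : ℂ) • (∑ a, ∑ b ∈ Finset.Ioi a, G a b) =
        (2 : ℂ) • ((n : ℂ) • v j - ∑ l, v l) := by
      rw [← h3, ← h2, two_smul]
    exact smul_right_injective M (two_ne_zero (α := ℂ)) h6
  rw [h5]
  abel

end matrix

end Run7.h793.Cl
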