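import Pool.Agent.Run7.h793.Cl.Fin2

/-!
# The inequalities for `n`-tuples of operators on a finite dimensional space, in `ℝ≥0∞`
-/

open scoped InnerProductSpace ENNReal ComplexConjugate

namespace Run7.h793.Cl

universe u

section main

variable {ι₀ : Type u} [Fintype ι₀]

/-- The right hand side. -/
noncomputable def RR {E : Type u} [NormedAddCommGroup E] [InnerProductSpace ℂ E]
    (n : ℕ) (p r : ℝ) (A : Fin n → E →L[ℂ] E) : ℝ≥0∞ :=
  tau p (∑ j, A j) ^ r + ∑ j, ∑ k ∈ Finset.Ioi j, tau p (A j - A k) ^ r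

/-- The left hand side. -/
noncomputable def LL {E : Type u} [NormedAddCommGroup E] [InnerProductSpace ℂ E]
    (n : ℕ) (p r : ℝ) (A : Fin n → E →L[ℂ] E) : ℝ≥0∞ :=
  n * (∑ j, tau p (A j)) ^ r

lemma RR_eq {E : Type u} [NormedAddCommGroup E] [InnerProductSpace ℂ E]
    (n : ℕ) (p r : ℝ) (A : Fin n → E →L[ℂ] E) :
    RR n p r A = ∑ i, tau p (∑ j, TT n i j • A j) ^ r := by
  rw [sum_Ix, TT_none]
  unfold RR
  congr 1
  refine Finset.sum_congr rfl fun j _ => ?_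
  rw [← Finset.sum_coe_sort (Finset.Ioi j) (fun k => tau p (A j - A k) ^ r)]
  refine Finset.sum_congr rfl fun k _ => ?_
  rw [TT_some]

lemma q_facts {p q : ℝ} (hp : 1 < p) (hpq : 1 / p + 1 / q = 1) : 1 < q := by
  have hp0 : 0 < p := by linarith
  have h1 : 1 / p < 1 := by rw [div_lt_one hp0]; exact hp
  have h2 : 0 < 1 / q := by linarith
  have hq0 : 0 < q := by simpa using h2
  have h3 : 0 < 1 / p := by positivity
  have h4 : 1 / q < 1 := by linarith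
  rwa [div_lt_one hq0] at h4

/-- The data of singular value decompositions. -/
lemma exists_family {K : Type} (X : K → EuclideanSpace ℂ ι₀ →L[ℂ] EuclideanSpace ℂ ι₀) :
    ∃ (κ : K → ℕ) (t : ∀ i, Fin (κ i) → ℝ) (g h : ∀ i, Fin (κ i) → EuclideanSpace ℂ ι₀),
      (∀ i a, 0 < t i a) ∧ (∀ i, Antitone (t i)) ∧ (∀ i, Orthonormal ℂ (g i)) ∧
      (∀ i, Orthonormal ℂ (h i)) ∧ ∀ i, X i = svdOp (t i) (g i) (h i) := by
  choose κ t g h h1 h2 h3 h4 h5 using fun i => exists_svd (X i)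
  exact ⟨κ, t, g, h, h1, h2, h3, h4, h5⟩

lemma conv_LL (n : ℕ) {p r : ℝ} (hp : 0 < p) (hr : 0 < r) {ι : Fin n → ℕ}
    {s : ∀ j, Fin (ι j) → ℝ} {e f : ∀ j, Fin (ι j) → EuclideanSpace ℂ ι₀}
    (hs : ∀ j a, 0 < s j a) (hsa : ∀ j, Antitone (s j)) (he : ∀ j, Orthonormal ℂ (e j))
    (hf : ∀ j, Orthonormal ℂ (f j)) :
    LL n p r (fun j => svdOp (s j) (e j) (f j)) =
      ENNReal.ofReal ((n : ℝ) * (∑ j, ∑ a, s j a ^ p) ^ r) := by
  unfold LL
  have h0 : ∀ j, 0 ≤ ∑ a, s j a ^ p := fun j =>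
    Finset.sum_nonneg fun a _ => Real.rpow_nonneg (hs j a).le _
  simp only [tau_svdOp (hs _) (hsa _) (he _) (hf _) hp]
  rw [← ENNReal.ofReal_sum_of_nonneg (fun j _ => h0 j),
    ENNReal.ofReal_rpow_of_nonneg (Finset.sum_nonneg fun j _ => h0 j) hr.le,
    ENNReal.ofReal_mul (by positivity), ENNReal.ofReal_natCast]

lemma conv_RR (n : ℕ) {p q : ℝ} (hp : 0 < p) (hq : 0 < q) {κ : Ix n → ℕ}
    {t : ∀ i, Fin (κ i) → ℝ} {g h : ∀ i, Fin (κ i) → EuclideanSpace ℂ ι₀}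
    (ht : ∀ i b, 0 < t i b) (hta : ∀ i, Antitone (t i)) (hg : ∀ i, Orthonormal ℂ (g i))
    (hh : ∀ i, Orthonormal ℂ (h i)) (A : Fin n → EuclideanSpace ℂ ι₀ →L[ℂ] EuclideanSpace ℂ ι₀)
    (hX : ∀ i, ∑ j, TT n i j • A j = svdOp (t i) (g i) (h i)) :
    RR n p (q / p) A = ENNReal.ofReal (∑ i, ((∑ b, t i b ^ p) ^ (1 / p)) ^ q) := by
  rw [RR_eq]
  have h0 : ∀ i, 0 ≤ ∑ b, t i b ^ p := fun i =>
    Finset.sum_nonneg fun a _ => Real.rpow_nonneg (ht i a).le _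
  rw [ENNReal.ofReal_sum_of_nonneg (fun i _ => by have := h0 i; positivity)]
  refine Finset.sum_congr rfl fun i _ => ?_
  rw [hX i, tau_svdOp (ht _) (hta _) (hg _) (hh _) hp,
    ENNReal.ofReal_rpow_of_nonneg (h0 i) (by positivity), ← Real.rpow_mul (h0 i)]
  congr 2
  ring

lemma TT_sq' (n : ℕ) (v : Fin n → EuclideanSpace ℂ (ι₀ × ι₀)) :
    ∑ i, ‖∑ j, TT n i j • v j‖ ^ 2 ≤ (n : ℝ) * ∑ j, ‖v j‖ ^ 2 := TT_sq v

/-- The case `1 < p ≤ 2` in finite dimensions. -/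
theorem fin_le_two (n : ℕ) {p q : ℝ} (hp : 1 < p) (hp2 : p ≤ 2) (hpq : 1 / p + 1 / q = 1)
    (A : Fin n → EuclideanSpace ℂ ι₀ →L[ℂ] EuclideanSpace ℂ ι₀) :
    RR n p (q / p) A ≤ LL n p (q / p) A := by
  have hp0 : 0 < p := by linarith
  have hq1 := q_facts hp hpq
  have hq0 : 0 < q := by linarith
  have hq2 : 2 ≤ q := by
    have h1 : 1 / 2 ≤ 1 / p := one_div_le_one_div_of_le hp0 hp2
    have h2 : 1 / q ≤ 1 / 2 := by linarith
    exact (one_div_le_one_div hq0 (by norm_num)).mp h2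
  obtain ⟨ι, s, e, f, hs, hsa, he, hf, hA⟩ := exists_family A
  obtain ⟨κ, t, g, h, ht, hta, hg, hh, hX⟩ := exists_family (fun i => ∑ j, TT n i j • A j)
  rw [conv_RR n hp0 hq0 ht hta hg hh A hX]
  have hA' : A = fun j => svdOp (s j) (e j) (f j) := funext hA
  have hX' : ∀ i, svdOp (t i) (g i) (h i) = ∑ j, TT n i j • svdOp (s j) (e j) (f j) := by
    intro i
    rw [← hX i]
    refine Finset.sum_congr rfl fun j _ => ?_
    rw [hA j]
  rw [hA', conv_LL n hp0 (by positivity) hs hsa he hf]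
  apply ENNReal.ofReal_le_ofReal
  exact fin_two (TT n) TT_norm n n.cast_nonneg (TT_sq' n) hp hq2 hpq hg hh he hf t ht
    s hs hX'

/-- The case `p ≥ 2` in finite dimensions. -/
theorem fin_ge_two (n : ℕ) {p q : ℝ} (hp2 : 2 ≤ p) (hpq : 1 / p + 1 / q = 1)
    (A : Fin n → EuclideanSpace ℂ ι₀ →L[ℂ] EuclideanSpace ℂ ι₀) :
    LL n p (q / p) A ≤ RR n p (q / p) A := by
  have hp0 : 0 < p := by linarith
  have hq1 := q_facts (by linarith) hpq
  have hq0 : 0 < q := by linarith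
  rcases Nat.eq_zero_or_pos n with hn | hn
  · subst hn
    simp [LL]
  obtain ⟨ι, s, e, f, hs, hsa, he, hf, hA⟩ := exists_family A
  obtain ⟨κ, t, g, h, ht, hta, hg, hh, hX⟩ := exists_family (fun i => ∑ j, TT n i j • A j)
  rw [conv_RR n hp0 hq0 ht hta hg hh A hX]
  have hA' : A = fun j => svdOp (s j) (e j) (f j) := funext hA
  have hX' : ∀ j, ∑ i, conj (TT n i j) • svdOp (t i) (g i) (h i) =
      (((n : ℝ)) : ℂ) • svdOp (s j) (e j) (f j) := by
    intro j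
    have h1 := TT_dual A j
    rw [hA j] at h1
    have h2 : (((n : ℝ) : ℂ)) = (n : ℂ) := by push_cast; rfl
    rw [h2, ← h1]
    refine Finset.sum_congr rfl fun i _ => ?_
    rw [← hX i]
  rw [hA', conv_LL n hp0 (by positivity) hs hsa he hf]
  apply ENNReal.ofReal_le_ofReal
  have hn' : (0 : ℝ) < n := by exact_mod_cast hn
  exact fin_one (TT n) TT_norm n hn' (TT_sq' n) hp2 hq1 hpq hg hh he hf t ht s hs hX'

end main

end Run7.h793.Cl
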