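import Pool.Agent.Run7.h793.Cl.Core2
import Pool.Agent.Run7.h793.Cl.Exist

/-!
# The two inequalities in finite dimensions
-/

open scoped InnerProductSpace ENNReal ComplexConjugate

namespace Run7.h793.Cl

universe u

lemma alg_two {R S N p q : ℝ} (hR : 0 ≤ R) (hS : 0 ≤ S) (hN : 0 ≤ N) (hq : 2 ≤ q)
    (hpq : 1 / p + 1 / q = 1)
    (h : R ≤ (R * S) ^ (1 - 2 / q) * (√N * √R * √S) ^ (2 / q)) : R ≤ N * S ^ (q / p) := by
  have hq0 : 0 < q := by linarith
  rcases hR.eq_or_lt with hR0 | hR0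
  · rw [← hR0]
    exact mul_nonneg hN (Real.rpow_nonneg hS _)
  have h2q : 0 ≤ 1 - 2 / q := by
    rw [sub_nonneg, div_le_one hq0]; exact hq
  have hsq : ∀ y : ℝ, 0 ≤ y → (√y) ^ (2 / q) = y ^ (1 / q) := by
    intro y hy
    rw [Real.sqrt_eq_rpow, ← Real.rpow_mul hy]
    congr 1
    ring
  rw [Real.mul_rpow hR hS, Real.mul_rpow (by positivity) (by positivity),
    Real.mul_rpow (by positivity) (by positivity), hsq N hN, hsq R hR, hsq S hS] at h
  have e1 : R ^ (1 - 2 / q) * R ^ (1 / q) = R ^ (1 / p) := by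
    rw [← Real.rpow_add hR0]
    congr 1
    have : (2:ℝ) / q = 1 / q + 1 / q := by ring
    rw [this]; linarith
  have e2 : S ^ (1 - 2 / q) * S ^ (1 / q) = S ^ (1 / p) := by
    rw [← Real.rpow_add_of_nonneg hS h2q (by positivity)]
    congr 1
    have : (2:ℝ) / q = 1 / q + 1 / q := by ring
    rw [this]; linarith
  have h' : R ≤ R ^ (1 / p) * (N ^ (1 / q) * S ^ (1 / p)) := by
    calc R ≤ _ := h
      _ = (R ^ (1 - 2 / q) * R ^ (1 / q)) * (N ^ (1 / q) * (S ^ (1 - 2 / q) * S ^ (1 / q))) := by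
        ring
      _ = _ := by rw [e1, e2]
  have e3 : R = R ^ (1 / p) * R ^ (1 / q) := by
    rw [← Real.rpow_add hR0, hpq, Real.rpow_one]
  have h3 : R ^ (1 / q) ≤ N ^ (1 / q) * S ^ (1 / p) := by
    have h4 : R ^ (1 / p) * R ^ (1 / q) ≤ R ^ (1 / p) * (N ^ (1 / q) * S ^ (1 / p)) := by
      rw [← e3]; exact h'
    exact le_of_mul_le_mul_left h4 (Real.rpow_pos_of_pos hR0 _)
  calc R = (R ^ (1 / q)) ^ q := by
        rw [← Real.rpow_mul hR, one_div_mul_cancel hq0.ne', Real.rpow_one]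
    _ ≤ (N ^ (1 / q) * S ^ (1 / p)) ^ q :=
        Real.rpow_le_rpow (by positivity) h3 hq0.le
    _ = N * S ^ (q / p) := by
        rw [Real.mul_rpow (by positivity) (by positivity), ← Real.rpow_mul hN,
          ← Real.rpow_mul hS, one_div_mul_cancel hq0.ne', Real.rpow_one]
        congr 2
        ring

lemma alg_one {R S N p q : ℝ} (hR : 0 ≤ R) (hS : 0 ≤ S) (hN : 0 < N) (hp : 2 ≤ p) (hq : 0 < q)
    (hpq : 1 / p + 1 / q = 1)
    (h : N * S ≤ (R * S) ^ (1 - 2 / p) * (√N * √R * √S) ^ (2 / p)) : N * S ^ (q / p) ≤ R := by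
  have hp0 : 0 < p := by linarith
  rcases hS.eq_or_lt with hS0 | hS0
  · rw [← hS0, Real.zero_rpow (by positivity), mul_zero]
    exact hR
  have h2p : 0 ≤ 1 - 2 / p := by
    rw [sub_nonneg, div_le_one hp0]; exact hp
  have hsq : ∀ y : ℝ, 0 ≤ y → (√y) ^ (2 / p) = y ^ (1 / p) := by
    intro y hy
    rw [Real.sqrt_eq_rpow, ← Real.rpow_mul hy]
    congr 1
    ring
  rw [Real.mul_rpow hR hS, Real.mul_rpow (by positivity) (by positivity),
    Real.mul_rpow (by positivity) (by positivity), hsq N hN.le, hsq R hR, hsq S hS] at h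
  have e1 : S ^ (1 - 2 / p) * S ^ (1 / p) = S ^ (1 / q) := by
    rw [← Real.rpow_add hS0]
    congr 1
    have : (2:ℝ) / p = 1 / p + 1 / p := by ring
    rw [this]; linarith
  have e2 : R ^ (1 - 2 / p) * R ^ (1 / p) = R ^ (1 / q) := by
    rw [← Real.rpow_add_of_nonneg hR h2p (by positivity)]
    congr 1
    have : (2:ℝ) / p = 1 / p + 1 / p := by ring
    rw [this]; linarith
  have h' : N * S ≤ (N ^ (1 / p) * S ^ (1 / q)) * R ^ (1 / q) := by
    calc N * S ≤ _ := h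
      _ = (N ^ (1 / p) * (S ^ (1 - 2 / p) * S ^ (1 / p))) * (R ^ (1 - 2 / p) * R ^ (1 / p)) := by
        ring
      _ = _ := by rw [e1, e2]
  have e3 : N * S = (N ^ (1 / p) * S ^ (1 / q)) * (N ^ (1 / q) * S ^ (1 / p)) := by
    have a1 : N = N ^ (1 / p) * N ^ (1 / q) := by
      rw [← Real.rpow_add hN, hpq, Real.rpow_one]
    have a2 : S = S ^ (1 / p) * S ^ (1 / q) := by
      rw [← Real.rpow_add hS0, hpq, Real.rpow_one]
    calc N * S = (N ^ (1 / p) * N ^ (1 / q)) * (S ^ (1 / p) * S ^ (1 / q)) := by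
          rw [← a1, ← a2]
      _ = _ := by ring
  have h3 : N ^ (1 / q) * S ^ (1 / p) ≤ R ^ (1 / q) := by
    rw [e3] at h'
    exact le_of_mul_le_mul_left h' (by positivity)
  calc N * S ^ (q / p) = (N ^ (1 / q) * S ^ (1 / p)) ^ q := by
        rw [Real.mul_rpow (by positivity) (by positivity), ← Real.rpow_mul hN.le,
          ← Real.rpow_mul hS, one_div_mul_cancel hq.ne', Real.rpow_one]
        congr 2
        ring
    _ ≤ (R ^ (1 / q)) ^ q := Real.rpow_le_rpow (by positivity) h3 hq.le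
    _ = R := by rw [← Real.rpow_mul hR, one_div_mul_cancel hq.ne', Real.rpow_one]

section svd

variable {E F : Type u} [NormedAddCommGroup E] [InnerProductSpace ℂ E]
  [NormedAddCommGroup F] [InnerProductSpace ℂ F]

lemma svdOp_vec {m : ℕ} {s : Fin m → ℝ} {e : Fin m → E} {f : Fin m → F}
    (he : Orthonormal ℂ e) (b : Fin m) : svdOp s e f (e b) = (s b : ℂ) • f b := by
  rw [svdOp_apply, Finset.sum_eq_single b]
  · rw [inner_self_eq_norm_sq_to_K, he.1]
    simp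
  · intro c _ hc
    rw [he.2 hc]
    simp
  · intro h
    exact absurd (Finset.mem_univ _) h

lemma inner_svdOp_right {m : ℕ} (s : Fin m → ℝ) (e : Fin m → E) (f : Fin m → F) (x : E) (y : F) :
    ⟪y, svdOp s e f x⟫_ℂ = ∑ a, (s a : ℂ) * (⟪y, f a⟫_ℂ * ⟪e a, x⟫_ℂ) := by
  rw [svdOp_apply, inner_sum]
  refine Finset.sum_congr rfl fun a _ => ?_
  rw [inner_smul_right]
  ring

lemma inner_svdOp_left {m : ℕ} (s : Fin m → ℝ) (e : Fin m → E) (f : Fin m → F) (x : E) (y : F) :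
    ⟪svdOp s e f x, y⟫_ℂ = ∑ a, (s a : ℂ) * (⟪f a, y⟫_ℂ * ⟪x, e a⟫_ℂ) := by
  rw [svdOp_apply, sum_inner]
  refine Finset.sum_congr rfl fun a _ => ?_
  rw [inner_smul_left, map_mul, Complex.conj_ofReal, inner_conj_symm]
  ring

end svd

section main

variable {ι₀ : Type u} [Fintype ι₀] {I J : Type} [Fintype I] [Fintype J]

theorem fin_two (T : I → J → ℂ) (hT1 : ∀ i j, ‖T i j‖ ≤ 1)
    (N : ℝ) (hN : 0 ≤ N)
    (hT2 : ∀ v : J → EuclideanSpace ℂ (ι₀ × ι₀), ∑ i, ‖∑ j, T i j • v j‖ ^ 2 ≤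
      N * ∑ j, ‖v j‖ ^ 2)
    {p q : ℝ} (hp : 1 < p) (hq : 2 ≤ q) (hpq : 1 / p + 1 / q = 1)
    {κ : I → ℕ} {ι : J → ℕ}
    {g h : ∀ i, Fin (κ i) → EuclideanSpace ℂ ι₀} {e f : ∀ j, Fin (ι j) → EuclideanSpace ℂ ι₀}
    (hg : ∀ i, Orthonormal ℂ (g i)) (hh : ∀ i, Orthonormal ℂ (h i))
    (he : ∀ j, Orthonormal ℂ (e j)) (hf : ∀ j, Orthonormal ℂ (f j))
    (t : ∀ i, Fin (κ i) → ℝ) (ht : ∀ i b, 0 < t i b)
    (s : ∀ j, Fin (ι j) → ℝ) (hs : ∀ j a, 0 < s j a)
    (hX : ∀ i, svdOp (t i) (g i) (h i) = ∑ j, T i j • svdOp (s j) (e j) (f j)) :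
    ∑ i, ((∑ b, t i b ^ p) ^ (1 / p)) ^ q ≤ N * (∑ j, ∑ a, s j a ^ p) ^ (q / p) := by
  have hp0 : 0 < p := by linarith
  have hq0 : 0 < q := by linarith
  have hsum : p + q = p * q := by
    field_simp at hpq
    linarith
  set x : I → ℝ := fun i => (∑ b, t i b ^ p) ^ (1 / p) with hx
  set R : ℝ := ∑ i, x i ^ q with hR
  set S : ℝ := ∑ j, ∑ a, s j a ^ p with hS
  have hx0 : ∀ i, 0 ≤ x i := by
    intro i
    exact Real.rpow_nonneg (Finset.sum_nonneg fun b _ => Real.rpow_nonneg (ht i b).le _) _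
  have hxpos : ∀ i, Fin (κ i) → 0 < x i := by
    intro i b
    exact Real.rpow_pos_of_pos (Finset.sum_pos (fun b _ => Real.rpow_pos_of_pos (ht i b) _)
      ⟨b, Finset.mem_univ b⟩) _
  have hxpow : ∀ i, x i ^ p = ∑ b, t i b ^ p := by
    intro i
    simp only [hx]
    rw [← Real.rpow_mul (Finset.sum_nonneg fun b _ => Real.rpow_nonneg (ht i b).le _),
      one_div_mul_cancel hp0.ne', Real.rpow_one]
  have hR0 : 0 ≤ R := Finset.sum_nonneg fun i _ => Real.rpow_nonneg (hx0 i) _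
  have hS0 : 0 ≤ S := 
    Finset.sum_nonneg fun j _ => Finset.sum_nonneg fun a _ => Real.rpow_nonneg (hs j a).le _
  have key := three T hT1 N hN hT2 hp0 hq0 hg hh he hf t ht s hs x (fun _ => rfl) R S rfl rfl
    (2 / q) (by positivity) (by rw [div_le_one hq0]; exact hq)
  have E1 : q - (p + q) * (2 / q) / 2 = q - p := by
    rw [hsum]; field_simp
  have E2 : p * (2 / q) / 2 = p - 1 := by
    have : p / q = p - 1 := by
      rw [div_eq_iff hq0.ne']; linarith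
    rw [← this]; ring
  have E3 : p * (1 - 2 / q / 2) = 1 := by
    have : p * (1 - 2 / q / 2) = p - p / q := by ring
    rw [this]
    have : p / q = p - 1 := by
      rw [div_eq_iff hq0.ne']; linarith
    rw [this]; ring
  rw [E1, E2, E3] at key
  have hval : ∑ i, ∑ j, T i j * ∑ b, ∑ a,
      ((x i ^ (q - p) * t i b ^ (p - 1) : ℝ) : ℂ) *
      ((s j a ^ (1 : ℝ) : ℝ) : ℂ) *
      (⟪h i b, f j a⟫_ℂ * ⟪e j a, g i b⟫_ℂ) = (R : ℂ) := by
    rw [hR, Complex.ofReal_sum]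
    refine Finset.sum_congr rfl fun i _ => ?_
    have c1 : ∀ j, T i j * ∑ b, ∑ a,
        ((x i ^ (q - p) * t i b ^ (p - 1) : ℝ) : ℂ) * ((s j a ^ (1 : ℝ) : ℝ) : ℂ) *
        (⟪h i b, f j a⟫_ℂ * ⟪e j a, g i b⟫_ℂ) =
        ∑ b, ((x i ^ (q - p) * t i b ^ (p - 1) : ℝ) : ℂ) *
          (T i j * ⟪h i b, svdOp (s j) (e j) (f j) (g i b)⟫_ℂ) := by
      intro j
      rw [Finset.mul_sum]
      refine Finset.sum_congr rfl fun b _ => ?_
      rw [inner_svdOp_right, Finset.mul_sum, Finset.mul_sum, Finset.mul_sum]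
      refine Finset.sum_congr rfl fun a _ => ?_
      rw [Real.rpow_one]
      ring
    have c2 : ∑ j, T i j * ∑ b, ∑ a,
        ((x i ^ (q - p) * t i b ^ (p - 1) : ℝ) : ℂ) * ((s j a ^ (1 : ℝ) : ℝ) : ℂ) *
        (⟪h i b, f j a⟫_ℂ * ⟪e j a, g i b⟫_ℂ) =
        ∑ b, ((x i ^ (q - p) * t i b ^ (p - 1) * t i b : ℝ) : ℂ) := by
      rw [Finset.sum_congr rfl fun j _ => c1 j, Finset.sum_comm]
      refine Finset.sum_congr rfl fun b _ => ?_
      rw [← Finset.mul_sum]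
      have c3 : ∑ j, T i j * ⟪h i b, svdOp (s j) (e j) (f j) (g i b)⟫_ℂ = (t i b : ℂ) := by
        have c4 : ⟪h i b, svdOp (t i) (g i) (h i) (g i b)⟫_ℂ = (t i b : ℂ) := by
          rw [svdOp_vec (hg i), inner_smul_right, inner_self_eq_norm_sq_to_K, (hh i).1]
          simp
        rw [← c4, hX i, sum_apply, inner_sum]
        refine Finset.sum_congr rfl fun j _ => ?_
        change _ = ⟪h i b, T i j • (svdOp (s j) (e j) (f j) (g i b))⟫_ℂ
        rw [inner_smul_right]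
      rw [c3]
      push_cast
      ring
    have c5 : ∑ b, x i ^ (q - p) * t i b ^ (p - 1) * t i b = x i ^ q := by
      rcases Nat.eq_zero_or_pos (κ i) with hk | hk
      · have hem : IsEmpty (Fin (κ i)) := by rw [hk]; infer_instance
        have hx1 : x i = 0 := by
          simp only [hx]
          rw [Finset.univ_eq_empty, Finset.sum_empty, Real.zero_rpow]
          positivity
        rw [Finset.univ_eq_empty, Finset.sum_empty, hx1, Real.zero_rpow hq0.ne']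
      · have hxp := hxpos i ⟨0, hk⟩
        have c6 : ∀ b, x i ^ (q - p) * t i b ^ (p - 1) * t i b = x i ^ (q - p) * t i b ^ p := by
          intro b
          have : t i b ^ p = t i b ^ (p - 1) * t i b := by
            rw [← Real.rpow_add_one (ht i b).ne']
            congr 1; ring
          rw [this]; ring
        simp only [c6]
        rw [← Finset.mul_sum, ← hxpow i, ← Real.rpow_add hxp]
        congr 1
        ring
    refine c2.trans ?_
    rw [← c5, Complex.ofReal_sum]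
  rw [hval, Complex.norm_real, Real.norm_of_nonneg hR0] at key
  exact alg_two hR0 hS0 hN hq hpq key

theorem fin_one (T : I → J → ℂ) (hT1 : ∀ i j, ‖T i j‖ ≤ 1)
    (N : ℝ) (hN : 0 < N)
    (hT2 : ∀ v : J → EuclideanSpace ℂ (ι₀ × ι₀), ∑ i, ‖∑ j, T i j • v j‖ ^ 2 ≤
      N * ∑ j, ‖v j‖ ^ 2)
    {p q : ℝ} (hp : 2 ≤ p) (hq : 1 < q) (hpq : 1 / p + 1 / q = 1)
    {κ : I → ℕ} {ι : J → ℕ}
    {g h : ∀ i, Fin (κ i) → EuclideanSpace ℂ ι₀} {e f : ∀ j, Fin (ι j) → EuclideanSpace ℂ ι₀}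
    (hg : ∀ i, Orthonormal ℂ (g i)) (hh : ∀ i, Orthonormal ℂ (h i))
    (he : ∀ j, Orthonormal ℂ (e j)) (hf : ∀ j, Orthonormal ℂ (f j))
    (t : ∀ i, Fin (κ i) → ℝ) (ht : ∀ i b, 0 < t i b)
    (s : ∀ j, Fin (ι j) → ℝ) (hs : ∀ j a, 0 < s j a)
    (hX : ∀ j, ∑ i, conj (T i j) • svdOp (t i) (g i) (h i) = (N : ℂ) • svdOp (s j) (e j) (f j)) :
    N * (∑ j, ∑ a, s j a ^ p) ^ (q / p) ≤ ∑ i, ((∑ b, t i b ^ p) ^ (1 / p)) ^ q := by
  have hp0 : 0 < p := by linarith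
  have hq0 : 0 < q := by linarith
  have hsum : p + q = p * q := by
    field_simp at hpq
    linarith
  set x : I → ℝ := fun i => (∑ b, t i b ^ p) ^ (1 / p) with hx
  set R : ℝ := ∑ i, x i ^ q with hR
  set S : ℝ := ∑ j, ∑ a, s j a ^ p with hS
  have hx0 : ∀ i, 0 ≤ x i := by
    intro i
    exact Real.rpow_nonneg (Finset.sum_nonneg fun b _ => Real.rpow_nonneg (ht i b).le _) _
  have hR0 : 0 ≤ R := Finset.sum_nonneg fun i _ => Real.rpow_nonneg (hx0 i) _
  have hS0 : 0 ≤ S := 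
    Finset.sum_nonneg fun j _ => Finset.sum_nonneg fun a _ => Real.rpow_nonneg (hs j a).le _
  have key := three T hT1 N hN.le hT2 hp0 hq0 hg hh he hf t ht s hs x (fun _ => rfl) R S rfl rfl
    (2 / p) (by positivity) (by rw [div_le_one hp0]; exact hp)
  have E1 : q - (p + q) * (2 / p) / 2 = 0 := by
    rw [hsum]; field_simp; ring
  have E2 : p * (2 / p) / 2 = 1 := by
    field_simp
  have E3 : p * (1 - 2 / p / 2) = p - 1 := by
    field_simp
  rw [E1, E2, E3] at key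
  have hval : ∑ i, ∑ j, T i j * ∑ b, ∑ a,
      ((x i ^ (0 : ℝ) * t i b ^ (1 : ℝ) : ℝ) : ℂ) *
      ((s j a ^ (p - 1) : ℝ) : ℂ) *
      (⟪h i b, f j a⟫_ℂ * ⟪e j a, g i b⟫_ℂ) = ((N * S : ℝ) : ℂ) := by
    rw [Finset.sum_comm, hS, Finset.mul_sum, Complex.ofReal_sum]
    refine Finset.sum_congr rfl fun j _ => ?_
    have c1 : ∀ i, T i j * ∑ b, ∑ a,
        ((x i ^ (0 : ℝ) * t i b ^ (1 : ℝ) : ℝ) : ℂ) * ((s j a ^ (p - 1) : ℝ) : ℂ) *
        (⟪h i b, f j a⟫_ℂ * ⟪e j a, g i b⟫_ℂ) =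
        ∑ a, ((s j a ^ (p - 1) : ℝ) : ℂ) *
          (T i j * ⟪svdOp (t i) (g i) (h i) (e j a), f j a⟫_ℂ) := by
      intro i
      rw [Finset.sum_comm, Finset.mul_sum]
      refine Finset.sum_congr rfl fun a _ => ?_
      rw [inner_svdOp_left, Finset.mul_sum, Finset.mul_sum, Finset.mul_sum]
      refine Finset.sum_congr rfl fun b _ => ?_
      rw [Real.rpow_one, Real.rpow_zero, one_mul]
      ring
    have c2 : ∑ i, T i j * ∑ b, ∑ a,
        ((x i ^ (0 : ℝ) * t i b ^ (1 : ℝ) : ℝ) : ℂ) * ((s j a ^ (p - 1) : ℝ) : ℂ) *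
        (⟪h i b, f j a⟫_ℂ * ⟪e j a, g i b⟫_ℂ) =
        ∑ a, ((s j a ^ (p - 1) : ℝ) : ℂ) * ((N : ℂ) * (s j a : ℂ)) := by
      rw [Finset.sum_congr rfl fun i _ => c1 i, Finset.sum_comm]
      refine Finset.sum_congr rfl fun a _ => ?_
      rw [← Finset.mul_sum]
      congr 1
      have c4 : ⟪((N : ℂ) • svdOp (s j) (e j) (f j)) (e j a), f j a⟫_ℂ =
          (N : ℂ) * (s j a : ℂ) := by
        change ⟪(N : ℂ) • (svdOp (s j) (e j) (f j) (e j a)), f j a⟫_ℂ = _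
        rw [svdOp_vec (he j), inner_smul_left, inner_smul_left, inner_self_eq_norm_sq_to_K,
          (hf j).1]
        simp
      rw [← c4, ← hX j, sum_apply, sum_inner]
      refine Finset.sum_congr rfl fun i _ => ?_
      change _ = ⟪conj (T i j) • (svdOp (t i) (g i) (h i) (e j a)), f j a⟫_ℂ
      rw [inner_smul_left, Complex.conj_conj]
    refine c2.trans ?_
    rw [Finset.mul_sum, Complex.ofReal_sum]
    refine Finset.sum_congr rfl fun a _ => ?_
    have c5 : s j a ^ p = s j a ^ (p - 1) * s j a := by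
      rw [← Real.rpow_add_one (hs j a).ne']
      congr 1; ring
    rw [c5]
    push_cast
    ring
  rw [hval, Complex.norm_real, Real.norm_of_nonneg (mul_nonneg hN.le hS0)] at key
  exact alg_one hR0 hS0 hN hp hq0 hpq key

end main

end Run7.h793.Cl
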