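import Pool.Agent.Run7.h793.Cl.Fin3

/-!
# Compressions of operators to finite dimensional coordinate subspaces
-/

open scoped InnerProductSpace ENNReal
open Filter Topology

namespace Run7.h793.Cl

universe u

section tr

variable {E F G : Type u} [NormedAddCommGroup E] [InnerProductSpace ℂ E]
  [NormedAddCommGroup F] [InnerProductSpace ℂ F] [NormedAddCommGroup G] [InnerProductSpace ℂ G]

/-- `x ↦ ⟪w, x⟫ v` -/
noncomputable def rk (w : E) (v : F) : E →L[ℂ] F := (innerSL ℂ w).smulRight v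

lemma rk_apply (w : E) (v : F) (x : E) : rk w v x = ⟪w, x⟫_ℂ • v := rfl

/-- `x ↦ ∑ ⟪u_i, x⟫ w_i` -/
noncomputable def tr {σ : Type*} [Fintype σ] (u : σ → E) (w : σ → F) : E →L[ℂ] F :=
  ∑ i, rk (u i) (w i)

lemma tr_apply {σ : Type*} [Fintype σ] (u : σ → E) (w : σ → F) (x : E) :
    tr u w x = ∑ i, ⟪u i, x⟫_ℂ • w i := by
  unfold tr
  rw [sum_apply]
  rfl

lemma tr_norm_le {σ : Type*} [Fintype σ] {u : σ → E} {w : σ → F} (hu : Orthonormal ℂ u)
    (hw : Orthonormal ℂ w) : ‖tr u w‖ ≤ 1 := by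
  refine ContinuousLinearMap.opNorm_le_bound _ zero_le_one fun x => ?_
  rw [one_mul]
  refine le_of_sq_le_sq ?_ (norm_nonneg _)
  rw [tr_apply, norm_sq_sum_orth hw]
  exact hu.sum_inner_products_le x

lemma tr_comp {σ : Type*} [Fintype σ] {u : σ → F} (hu : Orthonormal ℂ u) (v : σ → E)
    (w : σ → G) : tr u w ∘L tr v u = tr v w := by
  ext x
  rw [ContinuousLinearMap.comp_apply, tr_apply, tr_apply, tr_apply]
  refine Finset.sum_congr rfl fun i _ => ?_
  rw [hu.inner_right_fintype]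

lemma rk_norm_le (w : E) (v : F) : ‖rk w v‖ ≤ ‖w‖ * ‖v‖ := by
  refine ContinuousLinearMap.opNorm_le_bound _ (by positivity) fun x => ?_
  rw [rk_apply, norm_smul]
  calc ‖⟪w, x⟫_ℂ‖ * ‖v‖ ≤ (‖w‖ * ‖x‖) * ‖v‖ :=
        mul_le_mul_of_nonneg_right (norm_inner_le_norm _ _) (norm_nonneg _)
    _ = _ := by ring

lemma rk_tendsto {α : Type*} {l : Filter α} {w : α → E} {v : α → F} {w₀ : E} {v₀ : F}
    (hw : Tendsto w l (𝓝 w₀)) (hv : Tendsto v l (𝓝 v₀)) :
    Tendsto (fun a => rk (w a) (v a)) l (𝓝 (rk w₀ v₀)) := by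
  rw [tendsto_iff_norm_sub_tendsto_zero]
  have h1 : ∀ a, ‖rk (w a) (v a) - rk w₀ v₀‖ ≤ ‖w a - w₀‖ * ‖v a‖ + ‖w₀‖ * ‖v a - v₀‖ := by
    intro a
    have e1 : rk (w a) (v a) - rk w₀ v₀ = rk (w a - w₀) (v a) + rk w₀ (v a - v₀) := by
      ext x
      change rk (w a) (v a) x - rk w₀ v₀ x = rk (w a - w₀) (v a) x + rk w₀ (v a - v₀) x
      simp only [rk_apply]
      rw [inner_sub_left, sub_smul, smul_sub]
      abel
    rw [e1]
    exact (norm_add_le _ _).trans (add_le_add (rk_norm_le _ _) (rk_norm_le _ _))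
  refine squeeze_zero (fun a => norm_nonneg _) h1 ?_
  have h2 : Tendsto (fun a => ‖w a - w₀‖) l (𝓝 0) := tendsto_iff_norm_sub_tendsto_zero.mp hw
  have h3 : Tendsto (fun a => ‖v a - v₀‖) l (𝓝 0) := tendsto_iff_norm_sub_tendsto_zero.mp hv
  have h4 := (h2.mul hv.norm).add ((tendsto_const_nhds (x := ‖w₀‖)).mul h3)
  simpa using h4

end tr

section approx

variable {H : Type u} [NormedAddCommGroup H] [InnerProductSpace ℂ H]

/-- Norm limits of operators of finite rank. -/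
def Approx (A : H →L[ℂ] H) : Prop :=
  ∀ ε : ℝ, 0 < ε → ∃ B : H →L[ℂ] H, LinearMap.rank (B : H →ₗ[ℂ] H) < Cardinal.aleph0 ∧
    ‖A - B‖ < ε

lemma Approx.add {A B : H →L[ℂ] H} (hA : Approx A) (hB : Approx B) : Approx (A + B) := by
  intro ε hε
  obtain ⟨A', hA1, hA2⟩ := hA (ε / 2) (by positivity)
  obtain ⟨B', hB1, hB2⟩ := hB (ε / 2) (by positivity)
  refine ⟨A' + B', ?_, ?_⟩
  · exact lt_of_le_of_lt (LinearMap.rank_add_le (A' : H →ₗ[ℂ] H) (B' : H →ₗ[ℂ] H))
      (Cardinal.add_lt_aleph0 hA1 hB1)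
  · calc ‖A + B - (A' + B')‖ = ‖(A - A') + (B - B')‖ := by congr 1; abel
      _ ≤ ‖A - A'‖ + ‖B - B'‖ := norm_add_le _ _
      _ < ε := by linarith

lemma Approx.neg {A : H →L[ℂ] H} (hA : Approx A) : Approx (-A) := by
  intro ε hε
  obtain ⟨A', hA1, hA2⟩ := hA ε hε
  refine ⟨-A', ?_, ?_⟩
  · refine lt_of_le_of_lt ?_ hA1
    have h1 := LinearMap.rank_comp_le_right (A' : H →ₗ[ℂ] H) (-(LinearMap.id : H →ₗ[ℂ] H))
    have h2 : (-(LinearMap.id : H →ₗ[ℂ] H)).comp (A' : H →ₗ[ℂ] H) =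
        ((-A' : H →L[ℂ] H) : H →ₗ[ℂ] H) := by
      ext x
      rfl
    rwa [h2] at h1
  · calc ‖-A - -A'‖ = ‖-(A - A')‖ := by congr 1; abel
      _ = ‖A - A'‖ := norm_neg _
      _ < ε := hA2

lemma Approx.sub {A B : H →L[ℂ] H} (hA : Approx A) (hB : Approx B) : Approx (A - B) := by
  rw [sub_eq_add_neg]
  exact hA.add hB.neg

lemma Approx.zero : Approx (0 : H →L[ℂ] H) := by
  intro ε hε
  refine ⟨0, ?_, by simpa using hε⟩
  have : LinearMap.rank ((0 : H →L[ℂ] H) : H →ₗ[ℂ] H) = 0 := LinearMap.rank_zero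
  rw [this]
  exact Cardinal.aleph0_pos

lemma Approx.sum {σ : Type*} (s : Finset σ) {A : σ → H →L[ℂ] H} (hA : ∀ j, Approx (A j)) :
    Approx (∑ j ∈ s, A j) := by
  classical
  induction s using Finset.induction_on with
  | empty => simpa using Approx.zero
  | insert a s ha ih =>
    rw [Finset.sum_insert ha]
    exact (hA a).add ih

lemma approx_of_tau {A : H →L[ℂ] H} {p : ℝ} (hp : 0 < p) (h : tau p A ≠ ⊤) : Approx A := by
  intro ε hε
  have h1 : Tendsto (fun k => sNum A k ^ p) atTop (𝓝 0) :=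
    ENNReal.tendsto_atTop_zero_of_tsum_ne_top h
  have h2 : ∀ᶠ k in atTop, sNum A k ^ p < ENNReal.ofReal ε ^ p := by
    apply h1.eventually_lt_const
    apply ENNReal.rpow_pos (ENNReal.ofReal_pos.mpr hε) ENNReal.ofReal_ne_top
  obtain ⟨k, hk⟩ := h2.exists
  have h3 : sNum A k < ENNReal.ofReal ε := (ENNReal.rpow_lt_rpow_iff hp).mp hk
  unfold sNum at h3
  obtain ⟨B, hB⟩ := iInf_lt_iff.mp h3
  obtain ⟨hB1, hB2⟩ := iInf_lt_iff.mp hB
  refine ⟨B, lt_of_le_of_lt hB1 Cardinal.natCast_lt_aleph0, ?_⟩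
  rw [← ofReal_norm] at hB2
  exact (ENNReal.ofReal_lt_ofReal_iff hε).mp hB2

end approx

section conv

variable {H : Type u} [NormedAddCommGroup H] [InnerProductSpace ℂ H] [CompleteSpace H]

lemma exists_rk (B : H →L[ℂ] H) (hB : LinearMap.rank (B : H →ₗ[ℂ] H) < Cardinal.aleph0) :
    ∃ (m : ℕ) (w v : Fin m → H), B = tr w v := by
  have hfin : Module.Finite ℂ (LinearMap.range (B : H →ₗ[ℂ] H)) :=
    Module.rank_lt_aleph0_iff.mp hB
  set W := LinearMap.range (B : H →ₗ[ℂ] H) with hW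
  set bs := stdOrthonormalBasis ℂ W with hbs
  refine ⟨_, fun l => ContinuousLinearMap.adjoint B (bs l : H), fun l => (bs l : H), ?_⟩
  ext x
  rw [tr_apply]
  set y : W := ⟨B x, ⟨x, rfl⟩⟩ with hy
  have h1 := bs.sum_repr' y
  have h2 := congrArg (Submodule.subtype W) h1
  rw [map_sum] at h2
  have h3 : (Submodule.subtype W) y = B x := rfl
  rw [h3] at h2
  rw [← h2]
  refine Finset.sum_congr rfl fun l _ => ?_
  rw [map_smul, ContinuousLinearMap.adjoint_inner_left]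
  rfl

variable {ι : Type u}

/-- The orthogonal projection onto the span of `b i`, `i ∈ s`. -/
noncomputable def PP (b : ι → H) (s : Finset ι) : H →L[ℂ] H :=
  tr (fun i : s => b i) (fun i : s => b i)

lemma PP_apply (b : ι → H) (s : Finset ι) (x : H) : PP b s x = ∑ i ∈ s, ⟪b i, x⟫_ℂ • b i := by
  unfold PP
  rw [tr_apply, Finset.sum_coe_sort s (fun i => ⟪b i, x⟫_ℂ • b i)]

lemma PP_symm (b : ι → H) (s : Finset ι) (x y : H) : ⟪PP b s x, y⟫_ℂ = ⟪x, PP b s y⟫_ℂ := by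
  rw [PP_apply, PP_apply, sum_inner, inner_sum]
  refine Finset.sum_congr rfl fun i _ => ?_
  rw [inner_smul_left, inner_smul_right, inner_conj_symm]
  ring

lemma PP_tendsto (b : HilbertBasis ι ℂ H) (x : H) :
    Tendsto (fun s : Finset ι => PP (fun i => b i) s x) atTop (𝓝 x) := by
  have h := b.hasSum_repr x
  have h2 : (fun s : Finset ι => PP (fun i => b i) s x) =
      fun s => ∑ i ∈ s, b.repr x i • b i := by
    funext s
    rw [PP_apply]
    refine Finset.sum_congr rfl fun i _ => ?_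
    rw [b.repr_apply_apply]
  rw [h2]
  exact h

lemma PP_conv_fin (b : HilbertBasis ι ℂ H) (B : H →L[ℂ] H)
    (hB : LinearMap.rank (B : H →ₗ[ℂ] H) < Cardinal.aleph0) :
    Tendsto (fun s : Finset ι => PP (fun i => b i) s ∘L B ∘L PP (fun i => b i) s) atTop
      (𝓝 B) := by
  obtain ⟨m, w, v, rfl⟩ := exists_rk B hB
  have h1 : (fun s : Finset ι => PP (fun i => b i) s ∘L tr w v ∘L PP (fun i => b i) s) =
      fun s => ∑ l, rk (PP (fun i => b i) s (w l)) (PP (fun i => b i) s (v l)) := by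
    funext s
    ext x
    simp only [ContinuousLinearMap.comp_apply]
    rw [tr_apply, map_sum, sum_apply]
    refine Finset.sum_congr rfl fun l _ => ?_
    rw [map_smul, rk_apply, PP_symm]
  rw [h1]
  unfold tr
  exact tendsto_finsetSum _ fun l _ => rk_tendsto (PP_tendsto b _) (PP_tendsto b _)

lemma PP_norm_le (b : HilbertBasis ι ℂ H) (s : Finset ι) : ‖PP (fun i => b i) s‖ ≤ 1 := by
  have h : Orthonormal ℂ (fun i : s => b i) :=
    b.orthonormal.comp _ Subtype.val_injective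
  exact tr_norm_le h h

lemma PP_conv (b : HilbertBasis ι ℂ H) (A : H →L[ℂ] H) (hA : Approx A) :
    Tendsto (fun s : Finset ι => ‖A - PP (fun i => b i) s ∘L A ∘L PP (fun i => b i) s‖) atTop
      (𝓝 0) := by
  rw [Metric.tendsto_nhds]
  intro ε hε
  obtain ⟨B, hB1, hB2⟩ := hA (ε / 3) (by positivity)
  have h1 := tendsto_iff_norm_sub_tendsto_zero.mp (PP_conv_fin b B hB1)
  have h2 := (Metric.tendsto_nhds.mp h1) (ε / 3) (by positivity)
  filter_upwards [h2] with s hs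
  rw [Real.dist_eq, sub_zero, abs_of_nonneg (norm_nonneg _)] at hs ⊢
  set P := PP (fun i => b i) s with hP
  have e1 : A - P ∘L A ∘L P = (A - B) - (P ∘L B ∘L P - B) - P ∘L (A - B) ∘L P := by
    rw [ContinuousLinearMap.sub_comp, ContinuousLinearMap.comp_sub]
    abel
  have e2 : ‖P ∘L (A - B) ∘L P‖ ≤ ‖A - B‖ := by
    have hP1 := PP_norm_le b s
    rw [← hP] at hP1
    calc ‖P ∘L (A - B) ∘L P‖ ≤ ‖P‖ * ‖(A - B) ∘L P‖ := ContinuousLinearMap.opNorm_comp_le _ _
      _ ≤ 1 * (‖A - B‖ * 1) := by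
          refine mul_le_mul hP1 ((ContinuousLinearMap.opNorm_comp_le _ _).trans
            (mul_le_mul_of_nonneg_left hP1 (norm_nonneg _))) (norm_nonneg _) zero_le_one
      _ = _ := by ring
  rw [e1]
  calc ‖(A - B) - (P ∘L B ∘L P - B) - P ∘L (A - B) ∘L P‖
      ≤ ‖(A - B) - (P ∘L B ∘L P - B)‖ + ‖P ∘L (A - B) ∘L P‖ := norm_sub_le _ _
    _ ≤ (‖A - B‖ + ‖P ∘L B ∘L P - B‖) + ‖A - B‖ := add_le_add (norm_sub_le _ _) e2
    _ < ε := by linarith

/-- The compression to the coordinate space `ℂ^s`. -/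
noncomputable def MM (b : ι → H) (s : Finset ι) (A : H →L[ℂ] H) :
    EuclideanSpace ℂ s →L[ℂ] EuclideanSpace ℂ s :=
  tr (fun i : s => b i) (fun i : s => (EuclideanSpace.basisFun s ℂ) i) ∘L A ∘L
    tr (fun i : s => (EuclideanSpace.basisFun s ℂ) i) (fun i : s => b i)

lemma MM_sub (b : ι → H) (s : Finset ι) (A B : H →L[ℂ] H) :
    MM b s (A - B) = MM b s A - MM b s B := by
  unfold MM
  rw [ContinuousLinearMap.sub_comp, ContinuousLinearMap.comp_sub]

lemma MM_sum (b : ι → H) (s : Finset ι) {n : ℕ} (A : Fin n → H →L[ℂ] H) :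
    MM b s (∑ j, A j) = ∑ j, MM b s (A j) := by
  unfold MM
  ext x : 1
  simp only [ContinuousLinearMap.comp_apply, sum_apply, map_sum]

lemma sNum_MM_le (b : HilbertBasis ι ℂ H) (s : Finset ι) (A : H →L[ℂ] H) (k : ℕ) :
    sNum (MM (fun i => b i) s A) k ≤ sNum A k := by
  have h : Orthonormal ℂ (fun i : s => b i) :=
    b.orthonormal.comp _ Subtype.val_injective
  have h' : Orthonormal ℂ (fun i : s => (EuclideanSpace.basisFun s ℂ) i) :=
    (EuclideanSpace.basisFun s ℂ).orthonormal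
  unfold MM
  refine (sNum_comp_left _ (tr_norm_le h h') _ k).trans ?_
  exact sNum_comp_right _ (tr_norm_le h' h) _ k

lemma sNum_PP_le (b : HilbertBasis ι ℂ H) (s : Finset ι) (A : H →L[ℂ] H) (k : ℕ) :
    sNum (PP (fun i => b i) s ∘L A ∘L PP (fun i => b i) s) k ≤
      sNum (MM (fun i => b i) s A) k := by
  have h : Orthonormal ℂ (fun i : s => b i) :=
    b.orthonormal.comp _ Subtype.val_injective
  have h' : Orthonormal ℂ (fun i : s => (EuclideanSpace.basisFun s ℂ) i) :=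
    (EuclideanSpace.basisFun s ℂ).orthonormal
  have e1 : PP (fun i => b i) s =
      tr (fun i : s => (EuclideanSpace.basisFun s ℂ) i) (fun i : s => b i) ∘L
      tr (fun i : s => b i) (fun i : s => (EuclideanSpace.basisFun s ℂ) i) := by
    rw [tr_comp h']
    rfl
  have e2 : PP (fun i => b i) s ∘L A ∘L PP (fun i => b i) s =
      tr (fun i : s => (EuclideanSpace.basisFun s ℂ) i) (fun i : s => b i) ∘L
      ((MM (fun i => b i) s A) ∘L
      tr (fun i : s => b i) (fun i : s => (EuclideanSpace.basisFun s ℂ) i)) := by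
    rw [e1]
    unfold MM
    rfl
  rw [e2]
  refine (sNum_comp_left _ (tr_norm_le h' h) _ k).trans ?_
  exact sNum_comp_right _ (tr_norm_le h h') _ k

lemma sNum_ne_top (A : H →L[ℂ] H) (k : ℕ) : sNum A k ≠ ⊤ := by
  have h : LinearMap.rank ((0 : H →L[ℂ] H) : H →ₗ[ℂ] H) ≤ (k : Cardinal.{u}) := by
    have : LinearMap.rank ((0 : H →L[ℂ] H) : H →ₗ[ℂ] H) = 0 := LinearMap.rank_zero
    rw [this]
    exact zero_le
  refine ne_top_of_le_ne_top ?_ (sNum_le (A := A) h)
  rw [← ofReal_norm]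
  exact ENNReal.ofReal_ne_top

lemma sNum_tendsto (b : HilbertBasis ι ℂ H) (A : H →L[ℂ] H) (hA : Approx A) (k : ℕ) :
    Tendsto (fun s : Finset ι => sNum (MM (fun i => b i) s A) k) atTop (𝓝 (sNum A k)) := by
  have h1 : Tendsto (fun s : Finset ι =>
      ‖A - PP (fun i => b i) s ∘L A ∘L PP (fun i => b i) s‖ₑ) atTop (𝓝 0) := by
    have h2 := (ENNReal.continuous_ofReal.tendsto 0).comp (PP_conv b A hA)
    rw [ENNReal.ofReal_zero] at h2
    refine h2.congr fun s => ?_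
    simp only [Function.comp]
    exact ofReal_norm _
  have h3 : Tendsto (fun s : Finset ι => sNum A k -
      ‖A - PP (fun i => b i) s ∘L A ∘L PP (fun i => b i) s‖ₑ) atTop (𝓝 (sNum A k - 0)) :=
    ENNReal.Tendsto.sub tendsto_const_nhds h1 (Or.inl (sNum_ne_top A k))
  rw [tsub_zero] at h3
  refine tendsto_of_tendsto_of_tendsto_of_le_of_le h3 tendsto_const_nhds (fun s => ?_)
    (fun s => sNum_MM_le b s A k)
  rw [tsub_le_iff_right]
  exact (sNum_le_add A _ k).trans (add_le_add_left (sNum_PP_le b s A k) _)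

end conv

end Run7.h793.Cl
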