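import Pool.Agent.Run7.h793.Cl.Limit

/-!
# The inequalities in Schatten classes of arbitrary Hilbert spaces
-/

open scoped InnerProductSpace ENNReal
open Filter Topology

namespace Run7.h793.Cl

universe u

section main

variable {H : Type u} [NormedAddCommGroup H] [InnerProductSpace ℂ H]

/-- Partial sums of `∑ s_k(A)^p`. -/
noncomputable def tauK (p : ℝ) (K : Finset ℕ) (A : H →L[ℂ] H) : ℝ≥0∞ := ∑ k ∈ K, sNum A k ^ p

lemma tauK_le (p : ℝ) (K : Finset ℕ) (A : H →L[ℂ] H) : tauK p K A ≤ tau p A :=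
  ENNReal.sum_le_tsum K

lemma tauK_tendsto (p : ℝ) (A : H →L[ℂ] H) :
    Tendsto (fun K : Finset ℕ => tauK p K A) atTop (𝓝 (tau p A)) :=
  (ENNReal.summable (f := fun k => sNum A k ^ p)).hasSum

variable [CompleteSpace H] {ι : Type u}

lemma tau_MM_le (b : HilbertBasis ι ℂ H) (s : Finset ι) (A : H →L[ℂ] H) {p : ℝ} (hp : 0 < p) :
    tau p (MM (fun i => b i) s A) ≤ tau p A :=
  ENNReal.tsum_le_tsum fun k => ENNReal.rpow_le_rpow (sNum_MM_le b s A k) hp.le

lemma tauK_MM_tendsto (b : HilbertBasis ι ℂ H) (A : H →L[ℂ] H) (hA : Approx A) (p : ℝ)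
    (K : Finset ℕ) :
    Tendsto (fun s : Finset ι => tauK p K (MM (fun i => b i) s A)) atTop (𝓝 (tauK p K A)) := by
  unfold tauK
  exact tendsto_finsetSum _ fun k _ =>
    (ENNReal.continuous_rpow_const.tendsto _).comp (sNum_tendsto b A hA k)

/-- Compressions of tuples. -/
noncomputable def MA (b : ι → H) (s : Finset ι) {n : ℕ} (A : Fin n → H →L[ℂ] H) :
    Fin n → EuclideanSpace ℂ s →L[ℂ] EuclideanSpace ℂ s := fun j => MM b s (A j)

lemma LL_MA_le (b : HilbertBasis ι ℂ H) (s : Finset ι) {n : ℕ} (A : Fin n → H →L[ℂ] H)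
    {p r : ℝ} (hp : 0 < p) (hr : 0 < r) :
    LL n p r (MA (fun i => b i) s A) ≤ LL n p r A := by
  unfold LL MA
  gcongr with j
  exact tau_MM_le b s _ hp

lemma RR_MA_le (b : HilbertBasis ι ℂ H) (s : Finset ι) {n : ℕ} (A : Fin n → H →L[ℂ] H)
    {p r : ℝ} (hp : 0 < p) (hr : 0 < r) :
    RR n p r (MA (fun i => b i) s A) ≤ RR n p r A := by
  unfold RR MA
  simp only [← MM_sub, ← MM_sum]
  gcongr with j _ k _
  · exact tau_MM_le b s _ hp
  · exact tau_MM_le b s _ hp

/-- Partial sums in the left hand side. -/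
noncomputable def LK (n : ℕ) (p r : ℝ) (K : Finset ℕ) (A : Fin n → H →L[ℂ] H) : ℝ≥0∞ :=
  n * (∑ j, tauK p K (A j)) ^ r

/-- Partial sums in the right hand side. -/
noncomputable def RK (n : ℕ) (p r : ℝ) (K : Finset ℕ) (A : Fin n → H →L[ℂ] H) : ℝ≥0∞ :=
  tauK p K (∑ j, A j) ^ r + ∑ j, ∑ k ∈ Finset.Ioi j, tauK p K (A j - A k) ^ r

lemma LK_tendsto (n : ℕ) (p r : ℝ) (A : Fin n → H →L[ℂ] H) :
    Tendsto (fun K => LK n p r K A) atTop (𝓝 (LL n p r A)) := by
  unfold LK LL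
  refine (ENNReal.continuous_const_mul (ENNReal.natCast_ne_top n)).tendsto _ |>.comp ?_
  refine (ENNReal.continuous_rpow_const.tendsto _).comp ?_
  exact tendsto_finsetSum _ fun j _ => tauK_tendsto p (A j)

lemma RK_tendsto (n : ℕ) (p r : ℝ) (A : Fin n → H →L[ℂ] H) :
    Tendsto (fun K => RK n p r K A) atTop (𝓝 (RR n p r A)) := by
  unfold RK RR
  refine Tendsto.add ?_ ?_
  · exact (ENNReal.continuous_rpow_const.tendsto _).comp (tauK_tendsto p _)
  · exact tendsto_finsetSum _ fun j _ => tendsto_finsetSum _ fun k _ =>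
      (ENNReal.continuous_rpow_const.tendsto _).comp (tauK_tendsto p _)

lemma LK_MA_tendsto (b : HilbertBasis ι ℂ H) (n : ℕ) (p r : ℝ) (K : Finset ℕ)
    (A : Fin n → H →L[ℂ] H) (hA : ∀ j, Approx (A j)) :
    Tendsto (fun s : Finset ι => LK n p r K (MA (fun i => b i) s A)) atTop
      (𝓝 (LK n p r K A)) := by
  unfold LK MA
  refine (ENNReal.continuous_const_mul (ENNReal.natCast_ne_top n)).tendsto _ |>.comp ?_
  refine (ENNReal.continuous_rpow_const.tendsto _).comp ?_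
  exact tendsto_finsetSum _ fun j _ => tauK_MM_tendsto b (A j) (hA j) p K

lemma RK_MA_tendsto (b : HilbertBasis ι ℂ H) (n : ℕ) (p r : ℝ) (K : Finset ℕ)
    (A : Fin n → H →L[ℂ] H) (hA : ∀ j, Approx (A j)) :
    Tendsto (fun s : Finset ι => RK n p r K (MA (fun i => b i) s A)) atTop
      (𝓝 (RK n p r K A)) := by
  unfold RK MA
  simp only [← MM_sub, ← MM_sum]
  refine Tendsto.add ?_ ?_
  · exact (ENNReal.continuous_rpow_const.tendsto _).comp
      (tauK_MM_tendsto b _ (Approx.sum _ hA) p K)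
  · exact tendsto_finsetSum _ fun j _ => tendsto_finsetSum _ fun k _ =>
      (ENNReal.continuous_rpow_const.tendsto _).comp
        (tauK_MM_tendsto b _ ((hA j).sub (hA k)) p K)

lemma LK_le {E : Type u} [NormedAddCommGroup E] [InnerProductSpace ℂ E] (n : ℕ) (p : ℝ) {r : ℝ}
    (hr : 0 < r) (K : Finset ℕ) (A : Fin n → E →L[ℂ] E) : LK n p r K A ≤ LL n p r A := by
  unfold LK LL
  gcongr with j
  exact tauK_le p K _

lemma RK_le {E : Type u} [NormedAddCommGroup E] [InnerProductSpace ℂ E] (n : ℕ) (p : ℝ) {r : ℝ}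
    (hr : 0 < r) (K : Finset ℕ) (A : Fin n → E →L[ℂ] E) : RK n p r K A ≤ RR n p r A := by
  unfold RK RR
  gcongr with j _ k _
  · exact tauK_le p K _
  · exact tauK_le p K _

theorem main_ge_two (n : ℕ) {p q : ℝ} (hp2 : 2 ≤ p) (hpq : 1 / p + 1 / q = 1)
    (A : Fin n → H →L[ℂ] H) (hA : ∀ j, Approx (A j)) :
    LL n p (q / p) A ≤ RR n p (q / p) A := by
  have hp0 : 0 < p := by linarith
  have hq1 := q_facts (by linarith) hpq
  have hr : 0 < q / p := by positivity
  obtain ⟨w, b, _⟩ := exists_hilbertBasis ℂ H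
  have h1 : ∀ K, LK n p (q / p) K A ≤ RR n p (q / p) A := by
    intro K
    refine le_of_tendsto' (LK_MA_tendsto b n p (q / p) K A hA) fun s => ?_
    exact (LK_le n p hr K _).trans ((fin_ge_two n hp2 hpq _).trans (RR_MA_le b s A hp0 hr))
  exact le_of_tendsto' (LK_tendsto n p (q / p) A) h1

theorem main_le_two (n : ℕ) {p q : ℝ} (hp : 1 < p) (hp2 : p ≤ 2) (hpq : 1 / p + 1 / q = 1)
    (A : Fin n → H →L[ℂ] H) (hA : ∀ j, Approx (A j)) :
    RR n p (q / p) A ≤ LL n p (q / p) A := by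
  have hp0 : 0 < p := by linarith
  have hq1 := q_facts hp hpq
  have hr : 0 < q / p := by positivity
  obtain ⟨w, b, _⟩ := exists_hilbertBasis ℂ H
  have h1 : ∀ K, RK n p (q / p) K A ≤ LL n p (q / p) A := by
    intro K
    refine le_of_tendsto' (RK_MA_tendsto b n p (q / p) K A hA) fun s => ?_
    exact (RK_le n p hr K _).trans ((fin_le_two n hp hp2 hpq _).trans (LL_MA_le b s A hp0 hr))
  exact le_of_tendsto' (RK_tendsto n p (q / p) A) h1

lemma approx_of_schatten {A : H →L[ℂ] H} {p : ℝ} (hp : 0 < p) (h : schatten p A < ⊤) :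
    Approx A := by
  refine approx_of_tau hp ?_
  intro h1
  unfold schatten at h
  unfold tau at h1
  rw [h1, ENNReal.top_rpow_of_pos (by positivity)] at h
  exact lt_irrefl _ h

end main

end Run7.h793.Cl
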