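import Pool.Agent.Run7.h793.Cl.Main

/-!
# The inequality of Q2 fails for every `0 < p < 1`
-/

open scoped InnerProductSpace ENNReal

namespace Run7.h793.Cl

universe u

section neg

variable {H : Type u} [NormedAddCommGroup H] [InnerProductSpace ℂ H]

/-- `c` times the rank one projection on `u`. -/
noncomputable def cP (u : H) (c : ℝ) : H →L[ℂ] H :=
  svdOp (fun _ : Fin 1 => c) (fun _ => u) (fun _ => u)

lemma cP_apply (u : H) (c : ℝ) (x : H) : cP u c x = ((c : ℂ) * ⟪u, x⟫_ℂ) • u := by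
  unfold cP
  rw [svdOp_apply]
  simp

lemma cP_sub (u : H) (c d : ℝ) : cP u c - cP u d = cP u (c - d) := by
  ext x
  rw [sub_apply, cP_apply, cP_apply, cP_apply, ← sub_smul]
  congr 1
  push_cast
  ring

lemma cP_sum (u : H) {n : ℕ} (c : Fin n → ℝ) : ∑ j, cP u (c j) = cP u (∑ j, c j) := by
  ext x
  rw [sum_apply, cP_apply]
  simp only [cP_apply]
  rw [← Finset.sum_smul, ← Finset.sum_mul]
  push_cast
  rfl

lemma orthonormal_one {u : H} (hu : ‖u‖ = 1) : Orthonormal ℂ (fun _ : Fin 1 => u) := by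
  refine ⟨fun _ => hu, fun i j hij => ?_⟩
  exact absurd (Subsingleton.elim i j) hij

lemma tau_cP {u : H} (hu : ‖u‖ = 1) {c p : ℝ} (hc : 0 < c) (hp : 0 < p) :
    tau p (cP u c) = ENNReal.ofReal (c ^ p) := by
  unfold cP
  rw [tau_svdOp (fun _ => hc) (fun _ _ _ => le_rfl) (orthonormal_one hu) (orthonormal_one hu) hp]
  simp

lemma tau_cP_rpow {u : H} (hu : ‖u‖ = 1) {c p q : ℝ} (hc : 0 < c) (hp : 0 < p) :
    tau p (cP u c) ^ (q / p) = ENNReal.ofReal (c ^ q) := by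
  rw [tau_cP hu hc hp, ENNReal.ofReal_rpow_of_pos (Real.rpow_pos_of_pos hc p),
    ← Real.rpow_mul hc.le]
  congr 2
  field_simp

theorem neg_main [Nontrivial H] (n : ℕ) (p q : ℝ) (hn : 2 ≤ n) (hp0 : 0 < p) (hp1 : p < 1)
    (hpq : 1 / p + 1 / q = 1) :
    ∃ A : Fin n → H →L[ℂ] H, (∀ j, schatten p (A j) < ⊤) ∧
      LL n p (q / p) A < RR n p (q / p) A ∧ RR n p (q / p) A < ⊤ := by
  have h1 : 1 < 1 / p := by rw [lt_one_div one_pos hp0]; simpa using hp1
  have hq1 : 1 / q < 0 := by linarith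
  have hq : q < 0 := by simpa using hq1
  obtain ⟨u, hu⟩ : ∃ u : H, ‖u‖ = 1 := by
    obtain ⟨v, hv⟩ := exists_ne (0 : H)
    refine ⟨((‖v‖ : ℂ)⁻¹) • v, ?_⟩
    rw [norm_smul, norm_inv, Complex.norm_real, norm_norm]
    exact inv_mul_cancel₀ (norm_ne_zero_iff.mpr hv)
  have hn1 : (0 : ℝ) < (n : ℝ) + 1 := by positivity
  set ε : ℝ := ((n : ℝ) + 1) ^ (1 / q) with hε
  have hε0 : 0 < ε := Real.rpow_pos_of_pos hn1 _
  have hεq : ε ^ q = n + 1 := by
    rw [hε, ← Real.rpow_mul hn1.le, one_div_mul_cancel hq.ne, Real.rpow_one]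
  set c : Fin n → ℝ := fun j => 1 + ((n : ℝ) - 1 - (j : ℕ)) * ε with hc
  have hc1 : ∀ j, 1 ≤ c j := by
    intro j
    have h2 : ((j : ℕ) : ℝ) + 1 ≤ n := by exact_mod_cast j.2
    simp only [hc]
    have h3 : 0 ≤ ((n : ℝ) - 1 - (j : ℕ)) * ε := mul_nonneg (by linarith) hε0.le
    linarith
  have hc0 : ∀ j, 0 < c j := fun j => lt_of_lt_of_le one_pos (hc1 j)
  have hcd : ∀ j k, j < k → 0 < c j - c k := by
    intro j k hjk
    have h2 : ((j : ℕ) : ℝ) < (k : ℕ) := by exact_mod_cast hjk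
    have h3 : c j - c k = (((k : ℕ) : ℝ) - (j : ℕ)) * ε := by
      simp only [hc]; ring
    rw [h3]
    exact mul_pos (by linarith) hε0
  set A : Fin n → H →L[ℂ] H := fun j => cP u (c j) with hA
  set j0 : Fin n := ⟨0, by omega⟩ with hj0
  set j1 : Fin n := ⟨1, by omega⟩ with hj1
  have hj01 : j0 < j1 := by simp [hj0, hj1, Fin.lt_def]
  have hcε : c j0 - c j1 = ε := by
    simp only [hc, hj0, hj1]
    push_cast
    ring
  have hsumpos : 0 < ∑ j, c j := Finset.sum_pos (fun j _ => hc0 j) ⟨j0, Finset.mem_univ _⟩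
  have hRR : RR n p (q / p) A = ENNReal.ofReal ((∑ j, c j) ^ q) +
      ∑ j, ∑ k ∈ Finset.Ioi j, ENNReal.ofReal ((c j - c k) ^ q) := by
    unfold RR
    simp only [hA]
    rw [cP_sum, tau_cP_rpow hu hsumpos hp0]
    congr 1
    refine Finset.sum_congr rfl fun j _ => Finset.sum_congr rfl fun k hk => ?_
    rw [cP_sub, tau_cP_rpow hu (hcd j k (Finset.mem_Ioi.mp hk)) hp0]
  refine ⟨A, ?_, ?_, ?_⟩
  · intro j
    have h2 := schatten_rpow p 1 (A j)
    rw [ENNReal.rpow_one] at h2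
    rw [h2]
    simp only [hA]
    rw [tau_cP hu (hc0 j) hp0]
    exact ENNReal.rpow_lt_top_of_nonneg (by positivity) ENNReal.ofReal_ne_top
  · have h2 : LL n p (q / p) A ≤ n := by
      unfold LL
      have h3 : 1 ≤ ∑ j, tau p (A j) := by
        calc (1 : ℝ≥0∞) ≤ tau p (A j0) := by
              simp only [hA]
              rw [tau_cP hu (hc0 j0) hp0, ENNReal.one_le_ofReal]
              exact Real.one_le_rpow (hc1 j0) hp0.le
          _ ≤ _ := Finset.single_le_sum (f := fun j => tau p (A j)) (fun j _ => zero_le)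
              (Finset.mem_univ j0)
      have h4 : (∑ j, tau p (A j)) ^ (q / p) ≤ 1 :=
        ENNReal.rpow_le_one_of_one_le_of_neg h3 (div_neg_of_neg_of_pos hq hp0)
      calc (n : ℝ≥0∞) * _ ≤ n * 1 := mul_le_mul_right h4 _
        _ = n := mul_one _
    refine lt_of_le_of_lt h2 ?_
    rw [hRR]
    have h5 : ENNReal.ofReal ((c j0 - c j1) ^ q) ≤
        ∑ j, ∑ k ∈ Finset.Ioi j, ENNReal.ofReal ((c j - c k) ^ q) := by
      calc ENNReal.ofReal ((c j0 - c j1) ^ q)
          ≤ ∑ k ∈ Finset.Ioi j0, ENNReal.ofReal ((c j0 - c k) ^ q) :=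
            Finset.single_le_sum (f := fun k => ENNReal.ofReal ((c j0 - c k) ^ q))
              (fun j _ => zero_le) (Finset.mem_Ioi.mpr hj01)
        _ ≤ _ := Finset.single_le_sum
              (f := fun j => ∑ k ∈ Finset.Ioi j, ENNReal.ofReal ((c j - c k) ^ q))
              (fun j _ => zero_le) (Finset.mem_univ j0)
    rw [hcε, hεq] at h5
    have h6 : (n : ℝ≥0∞) < ENNReal.ofReal ((n : ℝ) + 1) := by
      rw [← ENNReal.ofReal_natCast n]
      exact (ENNReal.ofReal_lt_ofReal_iff hn1).mpr (by linarith)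
    exact lt_of_lt_of_le h6 (h5.trans le_add_self)
  · rw [hRR]
    refine ENNReal.add_lt_top.mpr ⟨ENNReal.ofReal_lt_top, ?_⟩
    exact ENNReal.sum_lt_top.mpr fun j _ => ENNReal.sum_lt_top.mpr fun k _ =>
      ENNReal.ofReal_lt_top

end neg

end Run7.h793.Cl
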